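import Pool.Agent.H46.HC.Defs
import Pool.Agent.H86.CM.FO

/-!
# The notions of `HC.Defs` are definable
-/

set_option autoImplicit false
set_option linter.unusedTactic false
set_option linter.unreachableTactic false

universe v

namespace HC

open BV Pool.Agent.H86.CM

theorem fo_real (i j : ℕ) : FO.{v} fun _ E w => HM.IsReal E (w i) (w j) := by
  unfold HM.IsReal
  repeat' first
    | exact fo_mem _ _
    | exact fo_eq _ _
    | exact fo_const _
    | exact fo_pair _ _ _
    | exact fo_opair _ _ _
    | exact fo_app _ _ _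
    | refine fo_not ?_
    | refine fo_and ?_ ?_
    | refine fo_or ?_ ?_
    | refine fo_iff ?_ ?_
    | refine fo_imp ?_ ?_
    | refine fo_all ?_
    | refine fo_ex ?_

theorem fo_agree (i j k : ℕ) : FO.{v} fun _ E w => HM.Agree E (w i) (w j) (w k) := by
  unfold HM.Agree
  repeat' first
    | exact fo_mem _ _
    | exact fo_eq _ _
    | exact fo_const _
    | exact fo_pair _ _ _
    | exact fo_opair _ _ _
    | exact fo_app _ _ _
    | exact fo_real _ _
    | refine fo_not ?_
    | refine fo_and ?_ ?_
    | refine fo_or ?_ ?_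
    | refine fo_iff ?_ ?_
    | refine fo_imp ?_ ?_
    | refine fo_all ?_
    | refine fo_ex ?_

theorem fo_openR (i j : ℕ) : FO.{v} fun _ E w => IsOpenR E (w i) (w j) := by
  unfold IsOpenR
  repeat' first
    | exact fo_mem _ _
    | exact fo_eq _ _
    | exact fo_const _
    | exact fo_pair _ _ _
    | exact fo_opair _ _ _
    | exact fo_app _ _ _
    | exact fo_real _ _
    | exact fo_agree _ _ _
    | refine fo_not ?_
    | refine fo_and ?_ ?_
    | refine fo_or ?_ ?_
    | refine fo_iff ?_ ?_
    | refine fo_imp ?_ ?_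
    | refine fo_all ?_
    | refine fo_ex ?_

theorem fo_closedR (i j : ℕ) : FO.{v} fun _ E w => IsClosedR E (w i) (w j) := by
  unfold IsClosedR
  repeat' first
    | exact fo_mem _ _
    | exact fo_eq _ _
    | exact fo_const _
    | exact fo_pair _ _ _
    | exact fo_opair _ _ _
    | exact fo_app _ _ _
    | exact fo_real _ _
    | exact fo_agree _ _ _
    | exact fo_openR _ _
    | refine fo_not ?_
    | refine fo_and ?_ ?_
    | refine fo_or ?_ ?_
    | refine fo_iff ?_ ?_
    | refine fo_imp ?_ ?_
    | refine fo_all ?_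
    | refine fo_ex ?_

theorem fo_seq (i j : ℕ) : FO.{v} fun _ E w => IsSeq E (w i) (w j) := by
  unfold IsSeq
  repeat' first
    | exact fo_mem _ _
    | exact fo_eq _ _
    | exact fo_const _
    | exact fo_pair _ _ _
    | exact fo_opair _ _ _
    | exact fo_app _ _ _
    | exact fo_real _ _
    | exact fo_agree _ _ _
    | exact fo_openR _ _
    | exact fo_closedR _ _
    | refine fo_not ?_
    | refine fo_and ?_ ?_
    | refine fo_or ?_ ?_
    | refine fo_iff ?_ ?_
    | refine fo_imp ?_ ?_
    | refine fo_all ?_
    | refine fo_ex ?_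

theorem fo_gdelta (i j : ℕ) : FO.{v} fun _ E w => IsGdelta E (w i) (w j) := by
  unfold IsGdelta
  repeat' first
    | exact fo_mem _ _
    | exact fo_eq _ _
    | exact fo_const _
    | exact fo_pair _ _ _
    | exact fo_opair _ _ _
    | exact fo_app _ _ _
    | exact fo_real _ _
    | exact fo_agree _ _ _
    | exact fo_openR _ _
    | exact fo_closedR _ _
    | exact fo_seq _ _
    | refine fo_not ?_
    | refine fo_and ?_ ?_
    | refine fo_or ?_ ?_
    | refine fo_iff ?_ ?_
    | refine fo_imp ?_ ?_
    | refine fo_all ?_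
    | refine fo_ex ?_

theorem fo_fsigma (i j : ℕ) : FO.{v} fun _ E w => IsFsigma E (w i) (w j) := by
  unfold IsFsigma
  repeat' first
    | exact fo_mem _ _
    | exact fo_eq _ _
    | exact fo_const _
    | exact fo_pair _ _ _
    | exact fo_opair _ _ _
    | exact fo_app _ _ _
    | exact fo_real _ _
    | exact fo_agree _ _ _
    | exact fo_openR _ _
    | exact fo_closedR _ _
    | exact fo_seq _ _
    | exact fo_gdelta _ _
    | refine fo_not ?_
    | refine fo_and ?_ ?_
    | refine fo_or ?_ ?_
    | refine fo_iff ?_ ?_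
    | refine fo_imp ?_ ?_
    | refine fo_all ?_
    | refine fo_ex ?_

theorem fo_lev (i j k l : ℕ) : FO.{v} fun _ E w => IsLev E (w i) (w j) (w k) (w l) := by
  unfold IsLev
  repeat' first
    | exact fo_mem _ _
    | exact fo_eq _ _
    | exact fo_const _
    | exact fo_pair _ _ _
    | exact fo_opair _ _ _
    | exact fo_app _ _ _
    | exact fo_real _ _
    | exact fo_agree _ _ _
    | exact fo_openR _ _
    | exact fo_closedR _ _
    | exact fo_seq _ _
    | exact fo_gdelta _ _
    | exact fo_fsigma _ _
    | refine fo_not ?_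
    | refine fo_and ?_ ?_
    | refine fo_or ?_ ?_
    | refine fo_iff ?_ ?_
    | refine fo_imp ?_ ?_
    | refine fo_all ?_
    | refine fo_ex ?_

theorem fo_meets (i j k : ℕ) : FO.{v} fun _ E w => Meets E (w i) (w j) (w k) := by
  unfold Meets
  repeat' first
    | exact fo_mem _ _
    | exact fo_eq _ _
    | exact fo_const _
    | exact fo_pair _ _ _
    | exact fo_opair _ _ _
    | exact fo_app _ _ _
    | exact fo_real _ _
    | exact fo_agree _ _ _
    | exact fo_openR _ _
    | exact fo_closedR _ _
    | exact fo_seq _ _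
    | exact fo_gdelta _ _
    | exact fo_fsigma _ _
    | exact fo_lev _ _ _ _
    | refine fo_not ?_
    | refine fo_and ?_ ?_
    | refine fo_or ?_ ?_
    | refine fo_iff ?_ ?_
    | refine fo_imp ?_ ?_
    | refine fo_all ?_
    | refine fo_ex ?_

theorem fo_nullC (i j : ℕ) : FO.{v} fun _ E w => IsNullC E (w i) (w j) := by
  unfold IsNullC InjOn
  repeat' first
    | exact fo_mem _ _
    | exact fo_eq _ _
    | exact fo_const _
    | exact fo_pair _ _ _
    | exact fo_opair _ _ _
    | exact fo_app _ _ _
    | exact fo_real _ _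
    | exact fo_agree _ _ _
    | exact fo_openR _ _
    | exact fo_closedR _ _
    | exact fo_seq _ _
    | exact fo_gdelta _ _
    | exact fo_fsigma _ _
    | exact fo_lev _ _ _ _
    | exact fo_meets _ _ _
    | refine fo_not ?_
    | refine fo_and ?_ ?_
    | refine fo_or ?_ ?_
    | refine fo_iff ?_ ?_
    | refine fo_imp ?_ ?_
    | refine fo_all ?_
    | refine fo_ex ?_

theorem fo_hull (i j k : ℕ) : FO.{v} fun _ E w => IsHull E (w i) (w j) (w k) := by
  unfold IsHull
  repeat' first
    | exact fo_mem _ _
    | exact fo_eq _ _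
    | exact fo_const _
    | exact fo_pair _ _ _
    | exact fo_opair _ _ _
    | exact fo_app _ _ _
    | exact fo_real _ _
    | exact fo_agree _ _ _
    | exact fo_openR _ _
    | exact fo_closedR _ _
    | exact fo_seq _ _
    | exact fo_gdelta _ _
    | exact fo_fsigma _ _
    | exact fo_lev _ _ _ _
    | exact fo_meets _ _ _
    | exact fo_nullC _ _
    | refine fo_not ?_
    | refine fo_and ?_ ?_
    | refine fo_or ?_ ?_
    | refine fo_iff ?_ ?_
    | refine fo_imp ?_ ?_
    | refine fo_all ?_
    | refine fo_ex ?_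

theorem fo_borel (i j : ℕ) : FO.{v} fun _ E w => IsBorel E (w i) (w j) := by
  unfold IsBorel
  repeat' first
    | exact fo_mem _ _
    | exact fo_eq _ _
    | exact fo_const _
    | exact fo_pair _ _ _
    | exact fo_opair _ _ _
    | exact fo_app _ _ _
    | exact fo_real _ _
    | exact fo_agree _ _ _
    | exact fo_openR _ _
    | exact fo_closedR _ _
    | exact fo_seq _ _
    | exact fo_gdelta _ _
    | exact fo_fsigma _ _
    | exact fo_lev _ _ _ _
    | exact fo_meets _ _ _
    | exact fo_nullC _ _
    | exact fo_hull _ _ _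
    | refine fo_not ?_
    | refine fo_and ?_ ?_
    | refine fo_or ?_ ?_
    | refine fo_iff ?_ ?_
    | refine fo_imp ?_ ?_
    | refine fo_all ?_
    | refine fo_ex ?_

theorem fo_hullOp (i j : ℕ) : FO.{v} fun _ E w => IsHullOp E (w i) (IsFsigma E (w i)) (w j) := by
  unfold IsHullOp
  repeat' first
    | exact fo_mem _ _
    | exact fo_eq _ _
    | exact fo_const _
    | exact fo_pair _ _ _
    | exact fo_opair _ _ _
    | exact fo_app _ _ _
    | exact fo_real _ _
    | exact fo_agree _ _ _
    | exact fo_openR _ _
    | exact fo_closedR _ _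
    | exact fo_seq _ _
    | exact fo_gdelta _ _
    | exact fo_fsigma _ _
    | exact fo_lev _ _ _ _
    | exact fo_meets _ _ _
    | exact fo_nullC _ _
    | exact fo_hull _ _ _
    | exact fo_borel _ _
    | refine fo_not ?_
    | refine fo_and ?_ ?_
    | refine fo_or ?_ ?_
    | refine fo_iff ?_ ?_
    | refine fo_imp ?_ ?_
    | refine fo_all ?_
    | refine fo_ex ?_

end HC
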