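import Pool.Agent.H46.HC.Prin
import Pool.Agent.H46.HC.FD
import Pool.Agent.H71.HM.Nm
import Pool.Agent.H86.CM.Force

/-!
# Names of sequences, of countable sets and of the open sets `O(c)`
-/

set_option autoImplicit false

namespace HC

open BV PK HM

variable {B : Type} [CompleteBooleanAlgebra B]

/-- name of the sequence `n ↦ A n` -/
noncomputable def sq (A : ℕ → BSet B) : BSet B :=
  BSet.mk ℕ (fun n => opr (chk B (n : Ordinal.{0})) (A n)) fun _ => ⊤

theorem app_sq (U : UF B) (A : ℕ → BSet B) (n : ℕ) (m : MU U) :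
    App (MU.E U) (MU.mk U (sq A)) (nn U n) m ↔ m = MU.mk U (A n) := by
  obtain ⟨x, rfl⟩ := MU.mk_surj U m
  unfold nn ck
  rw [← los_app]
  have h1 : bmem (opr (chk B (n : Ordinal.{0})) x) (sq A) = beq x (A n) := by
    unfold sq
    rw [bmem_mk, nm_iSup n]
    · rw [beq_opr, beq_refl, top_inf_eq, top_inf_eq]
    · intro j hj
      rw [beq_opr, beq_chk_of_ne, bot_inf_eq, inf_bot_eq]
      intro h
      exact hj (by exact_mod_cast h.symm)
  rw [h1, MU.mk_eq_iff]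

theorem isSeq_sq (U : UF B) (A : ℕ → BSet B) : IsSeq (MU.E U) (om U) (MU.mk U (sq A)) := by
  have hP : FDef fun (M : Type 1) E w => ∀ a a', App E (w 1) (w 0) a → App E (w 1) (w 0) a' →
      a = a' := by
    show Pool.Agent.H86.CM.FO _
    refine Pool.Agent.H86.CM.fo_all ?_
    refine Pool.Agent.H86.CM.fo_all ?_
    exact Pool.Agent.H86.CM.fo_imp (Pool.Agent.H86.CM.fo_app _ _ _)
      (Pool.Agent.H86.CM.fo_imp (Pool.Agent.H86.CM.fo_app _ _ _) (Pool.Agent.H86.CM.fo_eq _ _))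
  intro n hn
  refine ball_om hP (fun _ => sq A) ⊤ ?_ U U.top_mem n hn
  intro V _ k a a' h1 h2
  have h1' := (app_sq V A k a).1 h1
  have h2' := (app_sq V A k a').1 h2
  rw [h1', h2']

/-- a sequence of closed sets with union `D` -/
theorem isFsigma_of (A : ℕ → BSet B) (D : BSet B)
    (hA : ∀ (U : UF B) (n : ℕ), IsClosedR (MU.E U) (om U) (MU.mk U (A n)))
    (hD : ∀ x, bmem x D = ⨆ n, bmem x (A n)) (U : UF B) :
    IsFsigma (MU.E U) (om U) (MU.mk U D) := by
  refine ⟨MU.mk U (sq A), isSeq_sq U A, ?_, ?_⟩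
  · have hP : FDef fun (M : Type 1) E w => ∀ a, App E (w 1) (w 0) a → IsClosedR E (w 2) a := by
      show Pool.Agent.H86.CM.FO _
      refine Pool.Agent.H86.CM.fo_all ?_
      exact Pool.Agent.H86.CM.fo_imp (Pool.Agent.H86.CM.fo_app _ _ _) (fo_closedR _ _)
    intro n a hn ha
    refine ball_om hP (scons (sq A) fun _ => chk B Ordinal.omega0) ⊤ ?_ U U.top_mem n hn a ha
    intro V _ k a h
    have h' := (app_sq V A k a).1 h
    rw [h']
    exact hA V k
  · have hP : FDef fun (M : Type 1) E w => ∃ a, App E (w 1) (w 0) a ∧ E (w 2) a := by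
      show Pool.Agent.H86.CM.FO _
      refine Pool.Agent.H86.CM.fo_ex ?_
      exact Pool.Agent.H86.CM.fo_and (Pool.Agent.H86.CM.fo_app _ _ _)
        (Pool.Agent.H86.CM.fo_mem _ _)
    intro x
    obtain ⟨x, rfl⟩ := MU.mk_surj U x
    rw [MU.E_mk, hD]
    constructor
    · intro h
      obtain ⟨m, hm, a, ha, hxa⟩ := bex_om' hP (scons (sq A) fun _ => x) (fun n => bmem x (A n))
        (fun V n hn => ⟨MU.mk V (A n), (app_sq V A n _).2 rfl, hn⟩) U h
      exact ⟨m, a, hm, ha, hxa⟩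
    · rintro ⟨m, a, hm, ha, hxa⟩
      refine bex_om hP (scons (sq A) fun _ => x) (fun n => bmem x (A n)) ?_ U
        ⟨m, hm, a, ha, hxa⟩
      rintro V n ⟨a, ha, hxa⟩
      have h' := (app_sq V A n a).1 ha
      rw [h'] at hxa
      exact hxa

/-- two reals are equal if they agree below all `n ∈ ω` -/
theorem real_ext (U : UF B) {x y : MU U} (hx : IsReal (MU.E U) (om U) x)
    (hy : IsReal (MU.E U) (om U) y) (h : ∀ n, MU.E U n (om U) → Agree (MU.E U) n x y) : x = y := by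
  have hlim := (isOmega_om U).1.2.2.1
  refine MU.ext_E U _ _ fun z => ?_
  constructor
  · intro hz
    obtain ⟨n, hn, hzn⟩ := hlim z (hx z hz)
    exact (h n hn z hzn).1 hz
  · intro hz
    obtain ⟨n, hn, hzn⟩ := hlim z (hy z hz)
    exact (h n hn z hzn).2 hz

/-- name of `{y}` -/
noncomputable def sg (y : ℕ → B) : BSet B := BSet.mk Unit (fun _ => rnm y) fun _ => ⊤

theorem bmem_sg (y : ℕ → B) (x : BSet B) : bmem x (sg y) = beq x (rnm y) := by
  unfold sg
  rw [bmem_mk, iSup_const, top_inf_eq]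

theorem E_sg (U : UF B) (y : ℕ → B) (x : MU U) :
    MU.E U x (MU.mk U (sg y)) ↔ x = MU.mk U (rnm y) := by
  obtain ⟨x, rfl⟩ := MU.mk_surj U x
  rw [MU.E_mk, bmem_sg, MU.mk_eq_iff]

theorem isClosedR_sg (U : UF B) (y : ℕ → B) : IsClosedR (MU.E U) (om U) (MU.mk U (sg y)) := by
  constructor
  · intro x hx
    rw [E_sg] at hx
    rw [hx]
    exact isReal_rnm U y
  · intro x hx h
    rw [E_sg]
    refine real_ext U hx (isReal_rnm U y) fun n hn => ?_
    obtain ⟨z, hz, hz2⟩ := h n hn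
    rw [E_sg] at hz
    rw [hz] at hz2
    exact hz2

/-- name of `{y n | n}` -/
noncomputable def cnt (y : ℕ → ℕ → B) : BSet B := BSet.mk ℕ (fun n => rnm (y n)) fun _ => ⊤

theorem isFsigma_cnt (U : UF B) (y : ℕ → ℕ → B) :
    IsFsigma (MU.E U) (om U) (MU.mk U (cnt y)) := by
  refine isFsigma_of (fun n => sg (y n)) (cnt y) (fun V n => isClosedR_sg V (y n)) ?_ U
  intro x
  unfold cnt
  rw [bmem_mk]
  refine iSup_congr fun n => ?_
  rw [bmem_sg, top_inf_eq]

theorem E_cnt (U : UF B) (y : ℕ → ℕ → B) (n : ℕ) :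
    MU.E U (MU.mk U (rnm (y n))) (MU.mk U (cnt y)) := by
  rw [MU.E_mk]
  exact U.mem_of_le U.top_mem (vl_le_bmem (cnt y) n)

theorem beq_rnm_inf (x x' : ℕ → B) (a : ℕ) : beq (rnm x) (rnm x') ⊓ x a ≤ x' a := by
  have h := bmem_congr_right (rnm x) (rnm x') (chk B (a : Ordinal.{0}))
  rw [bmem_rnm, bmem_rnm] at h
  exact h

theorem agree_rnm (U : UF B) (n : ℕ) (x : MU U) (y : ℕ → B) :
    Agree (MU.E U) (nn U n) x (MU.mk U (rnm y)) ↔ ∀ a < n, (MU.E U (nn U a) x ↔ y a ∈ U) := by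
  constructor
  · intro h a ha
    rw [h (nn U a) ((E_nn U a n).2 ha), E_rnm]
  · intro h z hz
    obtain ⟨a, ha, rfl⟩ := mem_nn U n z hz
    rw [h a ha, E_rnm]

theorem df_mem (U : UF B) (a b : B) : df a b ∈ U ↔ (a ∈ U ↔ b ∉ U) := by
  unfold df
  rw [UF.sup_mem_iff, UF.inf_mem_iff, UF.inf_mem_iff, UF.compl_mem_iff, UF.compl_mem_iff]
  tauto

/-- the Boolean value of: `x` and `c` differ on `[k, 2 k + 2)` -/
noncomputable def ock (c : ℕ → B) (k : ℕ) (x : ℕ → B) : B :=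
  ⨅ a : ℕ, ⨅ (_ : k ≤ a ∧ a < 2 * k + 2), df (x a) (c a)

theorem fin_iInf_mem (U : UF B) (F : Finset ℕ) (f : ℕ → B) (h : ∀ a ∈ F, f a ∈ U) :
    (⨅ a ∈ F, f a) ∈ U := by
  classical
  induction F using Finset.induction_on with
  | empty => simpa using U.top_mem
  | insert a s ha ih =>
    rw [Finset.iInf_insert]
    exact U.inf_mem (h a (Finset.mem_insert_self a s))
      (ih fun x hx => h x (Finset.mem_insert_of_mem hx))

theorem ock_mem (U : UF B) (c : ℕ → B) (k : ℕ) (x : ℕ → B) :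
    ock c k x ∈ U ↔ ∀ a, k ≤ a → a < 2 * k + 2 → (x a ∈ U ↔ c a ∉ U) := by
  constructor
  · intro h a h1 h2
    rw [← df_mem]
    exact U.mem_of_iInf (U.mem_of_iInf h a) ⟨h1, h2⟩
  · intro h
    have h1 : (⨅ a ∈ Finset.Ico k (2 * k + 2), df (x a) (c a)) ∈ U := by
      refine fin_iInf_mem U _ _ fun a ha => ?_
      rw [Finset.mem_Ico] at ha
      rw [df_mem]
      exact h a ha.1 ha.2
    refine U.mem_of_le h1 ?_
    refine le_iInf fun a => le_iInf fun ha => ?_
    exact iInf₂_le a (Finset.mem_Ico.2 ha)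

theorem oc_eq (c x : ℕ → B) : oc c x = ⨆ k, ock c k x := rfl

theorem ock_congr (c : ℕ → B) (k : ℕ) (x x' : ℕ → B) :
    beq (rnm x) (rnm x') ⊓ ock c k x ≤ ock c k x' := by
  refine UF.le_of_forall fun U hU => ?_
  rw [UF.inf_mem_iff, ock_mem] at hU
  rw [ock_mem]
  intro a h1 h2
  rw [← hU.2 a h1 h2]
  constructor
  · intro h
    refine U.mem_of_le (U.inf_mem ?_ h) (beq_rnm_inf x' x a)
    rw [beq_symm]
    exact hU.1
  · intro h
    exact U.mem_of_le (U.inf_mem hU.1 h) (beq_rnm_inf x x' a)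

/-- membership in names of the form `Yn` -/
theorem E_Yn_iff (U : UF B) {Y : (ℕ → B) → B}
    (hY : ∀ x x', beq (rnm x) (rnm x') ⊓ Y x ≤ Y x') (x : ℕ → B) :
    MU.E U (MU.mk U (rnm x)) (MU.mk U (Yn Y)) ↔ Y x ∈ U := by
  constructor
  · intro h
    rw [MU.E_mk] at h
    refine U.mem_of_le h ?_
    unfold Yn
    rw [bmem_mk]
    refine iSup_le fun x' => ?_
    rw [inf_comm, beq_symm]
    exact hY x' x
  · exact E_Yn U Y x

/-- name of the closed set of the `x` which differ from `c` on `[k, 2 k + 2)` -/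
noncomputable def kn (c : ℕ → B) (k : ℕ) : BSet B := Yn (ock c k)

/-- name of the open set `O(c)` of the `x` which differ from `c` on some interval `[k, 2 k + 2)` -/
noncomputable def on (c : ℕ → B) : BSet B := Yn (oc c)

theorem E_kn (U : UF B) (c : ℕ → B) (k : ℕ) (x : ℕ → B) :
    MU.E U (MU.mk U (rnm x)) (MU.mk U (kn c k)) ↔
      ∀ a, k ≤ a → a < 2 * k + 2 → (x a ∈ U ↔ c a ∉ U) := by
  unfold kn
  rw [E_Yn_iff U (ock_congr c k), ock_mem]

theorem oc_congr (c : ℕ → B) (x x' : ℕ → B) :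
    beq (rnm x) (rnm x') ⊓ oc c x ≤ oc c x' := by
  rw [oc_eq, oc_eq, inf_iSup_eq]
  exact iSup_mono fun k => ock_congr c k x x'

theorem E_on (U : UF B) (c x : ℕ → B) :
    MU.E U (MU.mk U (rnm x)) (MU.mk U (on c)) ↔ oc c x ∈ U := by
  unfold on
  exact E_Yn_iff U (oc_congr c) x

theorem isClosedR_kn (U : UF B) (c : ℕ → B) (k : ℕ) :
    IsClosedR (MU.E U) (om U) (MU.mk U (kn c k)) := by
  constructor
  · exact isReal_of_Yn U (ock c k)
  · intro x hx h
    obtain ⟨x, rfl⟩ := exists_rnm U x hx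
    obtain ⟨y, hy, hxy⟩ := h (nn U (2 * k + 2)) (E_nn_om U _)
    obtain ⟨y, rfl⟩ := exists_rnm U y (isReal_of_Yn U (ock c k) y hy)
    rw [E_kn] at hy ⊢
    rw [agree_rnm] at hxy
    intro a h1 h2
    rw [← hy a h1 h2, ← hxy a h2, E_rnm]

theorem isFsigma_on (U : UF B) (c : ℕ → B) : IsFsigma (MU.E U) (om U) (MU.mk U (on c)) := by
  refine isFsigma_of (kn c) (on c) (fun V n => isClosedR_kn V c n) ?_ U
  intro x
  unfold on kn Yn
  rw [bmem_mk]
  simp only [bmem_mk]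
  rw [iSup_comm]
  refine iSup_congr fun y => ?_
  rw [oc_eq, iSup_inf_eq]

theorem isOpenR_on (U : UF B) (c : ℕ → B) : IsOpenR (MU.E U) (om U) (MU.mk U (on c)) := by
  constructor
  · exact isReal_of_Yn U (oc c)
  · intro x hx
    obtain ⟨x, rfl⟩ := exists_rnm U x (isReal_of_Yn U (oc c) x hx)
    rw [E_on, oc_eq] at hx
    have hP : FDef fun (M : Type 1) E w => ∃ n, E n (w 0) ∧ ∀ y, HM.IsReal E (w 0) y →
        HM.Agree E n (w 1) y → E y (w 2) := by
      show Pool.Agent.H86.CM.FO _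
      refine Pool.Agent.H86.CM.fo_ex ?_
      refine Pool.Agent.H86.CM.fo_and (Pool.Agent.H86.CM.fo_mem _ _) ?_
      refine Pool.Agent.H86.CM.fo_all ?_
      exact Pool.Agent.H86.CM.fo_imp (fo_real _ _) (Pool.Agent.H86.CM.fo_imp (fo_agree _ _ _)
        (Pool.Agent.H86.CM.fo_mem _ _))
    obtain ⟨b, hb⟩ := exists_val hP (scons (chk B Ordinal.omega0) (scons (rnm x) fun _ => on c))
    refine (hb U).1 (U.mem_of_le hx (iSup_le fun k => UF.le_of_forall fun V hV => ?_))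
    rw [hb]
    rw [ock_mem] at hV
    refine ⟨nn V (2 * k + 2), E_nn_om V _, fun y hy hxy => ?_⟩
    obtain ⟨y, rfl⟩ := exists_rnm V y hy
    have h1 : ∀ a < 2 * k + 2, (MU.E V (nn V a) (MU.mk V (rnm x)) ↔ y a ∈ V) :=
      (agree_rnm V _ _ y).1 hxy
    refine (E_on V c y).2 (V.mem_of_le ?_ (le_iSup (fun k => ock c k y) k))
    rw [ock_mem]
    intro a h2 h3
    rw [← hV a h2 h3, ← h1 a h3, E_rnm]

end HC
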