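import Mathlib

/-!
# The large pattern: a form of the Delta system lemma for countable sets
-/

set_option autoImplicit false

namespace HC

open Cardinal

/-- Let more than `2 ^ ℵ₀` sequences `ι x` be given, with `ι x 0 = x`, and `2 ^ ℵ₀` types `z x`. There
are a set `A` of places, a sequence `r` and a type `ζ` such that for all countable sets `T` some `ι x`
is equal to `r` on `A`, has the type `ζ` and avoids `T` outside of `A`.

Otherwise there is for all `A`, `r`, `ζ` a countable `T` which is a counterexample. Let `S` be a set of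
at most `2 ^ ℵ₀` points which is closed under these `T` (for `A` and `ζ` arbitrary, `r` in `S`). For
`x ∉ S` the places `n` with `ι x n ∈ S` are a contradiction. -/
theorem exists_big {X Z : Type} (hX : 2 ^ ℵ₀ < #X) (hZ : #Z ≤ 2 ^ ℵ₀) (ι : X → ℕ → X)
    (h0 : ∀ x, ι x 0 = x) (z : X → Z) : ∃ (A : Set ℕ) (r : ℕ → X) (ζ : Z), 0 ∉ A ∧
      ∀ T : Set X, T.Countable → ∃ x, (∀ n ∈ A, ι x n = r n) ∧ z x = ζ ∧
        ∀ n, n ∉ A → ι x n ∉ T := by
  classical
  by_contra hcon
  push Not at hcon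
  have hne : Nonempty X := by
    have h1 : #X ≠ 0 := by
      intro h
      rw [h] at hX
      exact absurd hX (not_lt.2 zero_le)
    exact Cardinal.mk_ne_zero_iff.1 h1
  obtain ⟨x0⟩ := hne
  -- enumerations of the counterexamples
  have hT : ∀ (A : Set ℕ) (r : ℕ → X) (ζ : Z), ∃ t : ℕ → X, 0 ∉ A →
      ∀ x, (∀ n ∈ A, ι x n = r n) → z x = ζ → ∃ n, n ∉ A ∧ ι x n ∈ Set.range t := by
    intro A r ζ
    by_cases h : 0 ∉ A
    · obtain ⟨T, hTc, hT⟩ := hcon A r ζ h
      rcases T.eq_empty_or_nonempty with hTe | hTn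
      · refine ⟨fun _ => x0, fun _ x h1 h2 => ?_⟩
        obtain ⟨n, hn, hn2⟩ := hT x h1 h2
        rw [hTe] at hn2
        exact absurd hn2 (Set.notMem_empty _)
      · obtain ⟨t, ht⟩ := hTc.exists_eq_range hTn
        refine ⟨t, fun _ x h1 h2 => ?_⟩
        rw [← ht]
        exact hT x h1 h2
    · exact ⟨fun _ => x0, fun h' => absurd h' h⟩
  choose t ht using hT
  let α : Type := Option (Set ℕ × Z × ℕ)
  let β : α → Type := fun a => a.elim Empty fun _ => ℕ
  let dec : WType β → X := fun w => WType.elim X (fun s : Σ a : α, β a → X =>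
    match s with
    | ⟨none, _⟩ => x0
    | ⟨some (A, ζ, n), f⟩ => t A f ζ n) w
  have hdec : ∀ (A : Set ℕ) (ζ : Z) (n : ℕ) (f : ℕ → WType β),
      dec (WType.mk (some (A, ζ, n)) f) = t A (fun k => dec (f k)) ζ n := fun A ζ n f => rfl
  have hle : #(WType β) ≤ 2 ^ ℵ₀ := by
    refine WType.cardinalMk_le_of_le ?_
    have h1 : ∀ a : α, (2 ^ ℵ₀ : Cardinal.{0}) ^ #(β a) ≤ 2 ^ ℵ₀ := by
      intro a
      cases a with
      | none =>
        show (2 ^ ℵ₀ : Cardinal.{0}) ^ #Empty ≤ 2 ^ ℵ₀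
        rw [Cardinal.mk_empty, power_zero]
        exact Cardinal.one_le_iff_pos.2 (lt_of_le_of_lt zero_le (Cardinal.cantor ℵ₀))
      | some s =>
        show (2 ^ ℵ₀ : Cardinal.{0}) ^ #ℕ ≤ 2 ^ ℵ₀
        rw [Cardinal.mk_nat, ← Cardinal.power_mul, Cardinal.aleph0_mul_aleph0]
    calc (Cardinal.sum fun a : α => (2 ^ ℵ₀ : Cardinal.{0}) ^ #(β a))
        ≤ Cardinal.sum fun _ : α => (2 ^ ℵ₀ : Cardinal.{0}) := Cardinal.sum_le_sum _ _ h1
      _ = #α * 2 ^ ℵ₀ := by rw [Cardinal.sum_const']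
      _ ≤ 2 ^ ℵ₀ * 2 ^ ℵ₀ := by
          refine mul_le_mul' ?_ le_rfl
          show #(Option (Set ℕ × Z × ℕ)) ≤ 2 ^ ℵ₀
          rw [Cardinal.mk_option, Cardinal.mk_prod, Cardinal.mk_prod, Cardinal.mk_set,
            Cardinal.mk_nat]
          simp only [Cardinal.lift_id]
          have hc : ℵ₀ ≤ (2 ^ ℵ₀ : Cardinal.{0}) := (Cardinal.cantor ℵ₀).le
          have h3 : (2 ^ ℵ₀ : Cardinal.{0}) * (#Z * ℵ₀) ≤ 2 ^ ℵ₀ := by
            calc (2 ^ ℵ₀ : Cardinal.{0}) * (#Z * ℵ₀) ≤ 2 ^ ℵ₀ * (2 ^ ℵ₀ * 2 ^ ℵ₀) :=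
                  mul_le_mul' le_rfl (mul_le_mul' hZ hc)
              _ = 2 ^ ℵ₀ := by rw [Cardinal.mul_eq_self hc, Cardinal.mul_eq_self hc]
          calc (2 ^ ℵ₀ : Cardinal.{0}) * (#Z * ℵ₀) + 1 ≤ 2 ^ ℵ₀ + 2 ^ ℵ₀ :=
                add_le_add h3 (Cardinal.one_le_aleph0.trans hc)
            _ = 2 ^ ℵ₀ := Cardinal.add_eq_self hc
      _ = 2 ^ ℵ₀ := Cardinal.mul_eq_self (Cardinal.cantor ℵ₀).le
  have hS : ∃ x, x ∉ Set.range dec := by
    by_contra hc
    push Not at hc
    have h1 : #X ≤ #(WType β) := Cardinal.mk_le_of_surjective (f := dec) fun x => hc x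
    exact absurd (h1.trans hle) (not_le.2 hX)
  obtain ⟨x, hx⟩ := hS
  -- the places in the closed set
  let A : Set ℕ := {n | ι x n ∈ Set.range dec}
  have hw : ∀ n, ∃ w : WType β, n ∈ A → dec w = ι x n := by
    intro n
    by_cases h : n ∈ A
    · obtain ⟨w, hw⟩ := h
      exact ⟨w, fun _ => hw⟩
    · exact ⟨WType.mk none (fun a => a.elim), fun h' => absurd h' h⟩
  choose w hw using hw
  have h0A : 0 ∉ A := by
    intro h
    apply hx
    have h2 : ι x 0 ∈ Set.range dec := h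
    rwa [h0] at h2
  obtain ⟨n, hn, m, hm⟩ := ht A (fun k => dec (w k)) (z x) h0A x
    (fun n hn => (hw n hn).symm) rfl
  apply hn
  exact ⟨WType.mk (some (A, z x, m)) w, by rw [hdec]; exact hm⟩

/-- every countable set is contained in the range of an injective sequence with given first element -/
theorem exists_enum {X : Type} [Infinite X] (S : Set X) (hS : S.Countable) (x : X) :
    ∃ ι : ℕ → X, Function.Injective ι ∧ ι 0 = x ∧ S ⊆ Set.range ι := by
  classical
  let g : ℕ ↪ X := Infinite.natEmbedding X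
  let S' : Set X := insert x (S ∪ Set.range g)
  have hc : S'.Countable := (hS.union (Set.countable_range g)).insert x
  have hi : S'.Infinite := (Set.infinite_range_of_injective g.injective).mono fun y hy =>
    Or.inr (Or.inr hy)
  have : Countable S' := hc.to_subtype
  have : Infinite S' := hi.to_subtype
  obtain ⟨f⟩ : Nonempty (ℕ ≃ S') := nonempty_equiv_of_countable
  let x' : S' := ⟨x, Or.inl rfl⟩
  let f' : ℕ ≃ S' := f.trans (Equiv.swap (f 0) x')
  refine ⟨fun n => (f' n).1, fun a b h => f'.injective (Subtype.ext h), ?_, ?_⟩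
  · show (Equiv.swap (f 0) x' (f 0)).1 = x
    rw [Equiv.swap_apply_left]
  · intro y hy
    exact ⟨f'.symm ⟨y, Or.inr (Or.inl hy)⟩, by simp⟩

end HC
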