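import Pool.Agent.H46.HC.Nam

/-!
# A hull of `O(c)` does not contain all reals
-/

set_option autoImplicit false

namespace HC

open BV PK HM

open Classical in
/-- less than half of the subsets of `{0, .., n - 1}` differ from `t0` on some interval
`[k, 2 k + 2)` contained in `{0, .., n - 1}` -/
theorem cnt_lt {n : ℕ} (hn : 0 < n) (t0 : Finset ℕ) :
    2 * (((Finset.range n).powerset.filter fun t => ∃ k, 2 * k + 2 ≤ n ∧
      ∀ a, k ≤ a → a < 2 * k + 2 → (a ∈ t ↔ a ∉ t0)).card) < 2 ^ n := by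
  classical
  -- one interval
  have h1 : ∀ k, 2 * k + 2 ≤ n → ((Finset.range n).powerset.filter fun t =>
      ∀ a, k ≤ a → a < 2 * k + 2 → (a ∈ t ↔ a ∉ t0)).card ≤ 2 ^ (n - (k + 2)) := by
    intro k hk
    have h2 : ((Finset.range n \ Finset.Ico k (2 * k + 2)).powerset).card = 2 ^ (n - (k + 2)) := by
      rw [Finset.card_powerset, Finset.card_sdiff_of_subset, Finset.card_range, Nat.card_Ico]
      · congr 2
        omega
      · intro a ha
        rw [Finset.mem_Ico] at ha
        rw [Finset.mem_range]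
        omega
    rw [← h2]
    refine Finset.card_le_card_of_injOn (fun t => t \ Finset.Ico k (2 * k + 2)) ?_ ?_
    · intro t ht
      rw [Finset.mem_coe, Finset.mem_filter, Finset.mem_powerset] at ht
      rw [Finset.mem_coe, Finset.mem_powerset]
      exact Finset.sdiff_subset_sdiff ht.1 (Finset.Subset.refl _)
    · intro t ht t' ht' h
      rw [Finset.mem_coe, Finset.mem_filter] at ht ht'
      ext a
      by_cases ha : a ∈ Finset.Ico k (2 * k + 2)
      · have ha' := Finset.mem_Ico.1 ha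
        rw [ht.2 a ha'.1 ha'.2, ht'.2 a ha'.1 ha'.2]
      · have h3 : a ∈ t \ Finset.Ico k (2 * k + 2) ↔ a ∈ t' \ Finset.Ico k (2 * k + 2) := by
          have h' : t \ Finset.Ico k (2 * k + 2) = t' \ Finset.Ico k (2 * k + 2) := h
          rw [h']
        rw [Finset.mem_sdiff, Finset.mem_sdiff] at h3
        tauto
  -- the sum
  have h2 : ∀ m, m + 1 ≤ n → 2 * (∑ k ∈ Finset.range m, 2 ^ (n - (k + 2))) + 2 * 2 ^ (n - (m + 1)) =
      2 ^ n := by
    intro m
    induction m with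
    | zero =>
      intro h
      rw [Finset.sum_range_zero, mul_zero, zero_add, ← pow_succ']
      congr 1
      omega
    | succ m ih =>
      intro h
      have h3 := ih (by omega)
      rw [Finset.sum_range_succ]
      have h4 : 2 ^ (n - (m + 1)) = 2 * 2 ^ (n - (m + 2)) := by
        rw [← pow_succ']
        congr 1
        omega
      have h5 : n - (m + 1 + 1) = n - (m + 2) := by omega
      rw [h5]
      rw [h4] at h3
      omega
  set m := n / 2 with hm
  have h3 : ((Finset.range n).powerset.filter fun t => ∃ k, 2 * k + 2 ≤ n ∧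
      ∀ a, k ≤ a → a < 2 * k + 2 → (a ∈ t ↔ a ∉ t0)).card ≤
      ∑ k ∈ Finset.range m, 2 ^ (n - (k + 2)) := by
    refine le_trans (Finset.card_le_card (t := (Finset.range m).biUnion fun k =>
      (Finset.range n).powerset.filter fun t =>
        ∀ a, k ≤ a → a < 2 * k + 2 → (a ∈ t ↔ a ∉ t0)) ?_) ?_
    · intro t ht
      rw [Finset.mem_filter] at ht
      obtain ⟨ht1, k, hk, ht2⟩ := ht
      rw [Finset.mem_biUnion]
      refine ⟨k, Finset.mem_range.2 (by omega), Finset.mem_filter.2 ⟨ht1, ht2⟩⟩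
    · refine Finset.card_biUnion_le.trans (Finset.sum_le_sum fun k hk => h1 k ?_)
      rw [Finset.mem_range] at hk
      omega
  have h4 := h2 m (by omega)
  have h5 : 0 < 2 ^ (n - (m + 1)) := Nat.pow_pos (by norm_num)
  omega

variable {B : Type} [CompleteBooleanAlgebra B]

/-- name of the complement of `O(c)` -/
noncomputable def cn (c : ℕ → B) : BSet B := Yn fun x => (oc c x)ᶜ

theorem E_cn (U : UF B) (c x : ℕ → B) :
    MU.E U (MU.mk U (rnm x)) (MU.mk U (cn c)) ↔ oc c x ∉ U := by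
  unfold cn
  rw [E_Yn_iff U, UF.compl_mem_iff]
  intro x x'
  refine UF.le_of_forall fun V hV => ?_
  rw [UF.inf_mem_iff, UF.compl_mem_iff] at hV
  rw [UF.compl_mem_iff]
  intro h
  apply hV.2
  refine V.mem_of_le (V.inf_mem ?_ h) (oc_congr c x' x)
  rw [beq_symm]
  exact hV.1

theorem isClosedR_cn (U : UF B) (c : ℕ → B) : IsClosedR (MU.E U) (om U) (MU.mk U (cn c)) := by
  constructor
  · exact isReal_of_Yn U _
  · intro x hx h
    obtain ⟨x, rfl⟩ := exists_rnm U x hx
    rw [E_cn]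
    intro hx'
    obtain ⟨n, hn, hn2⟩ := (isOpenR_on U c).2 _ ((E_on U c x).2 hx')
    obtain ⟨y, hy, hxy⟩ := h n hn
    have hyr : IsReal (MU.E U) (om U) y := isReal_of_Yn U _ y hy
    have h1 := hn2 y hyr hxy
    obtain ⟨y, rfl⟩ := exists_rnm U y hyr
    rw [E_cn] at hy
    rw [E_on] at h1
    exact hy h1

theorem E_fnm' (U : UF B) (s : Finset ℕ) (n : ℕ) :
    MU.E U (nn U n) (MU.mk U (fnm s)) ↔ n ∈ s := E_fnm U s n

/-- for standard `n`: if the box of `t` of level `n` is contained in `O(c)` then `t` and `c` differ on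
some interval `[k, 2 k + 2)` below `n` -/
theorem meets_of (U : UF B) (c : ℕ → B) (n : ℕ) (t : Finset ℕ)
    (h : ¬ Meets (MU.E U) (nn U n) (MU.mk U (fnm t)) (MU.mk U (cn c))) :
    ∃ k, 2 * k + 2 ≤ n ∧ ∀ a, k ≤ a → a < 2 * k + 2 → (a ∈ t ↔ c a ∉ U) := by
  classical
  by_contra hcon
  push Not at hcon
  apply h
  let x : ℕ → B := fun a => if a < n then (if a ∈ t then ⊤ else ⊥) else c a
  have hx1 : ∀ a, a < n → (x a ∈ U ↔ a ∈ t) := by
    intro a ha
    show (if a < n then (if a ∈ t then (⊤ : B) else ⊥) else c a) ∈ U ↔ _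
    rw [if_pos ha]
    by_cases hat : a ∈ t
    · rw [if_pos hat]
      exact ⟨fun _ => hat, fun _ => U.top_mem⟩
    · rw [if_neg hat]
      exact ⟨fun h => absurd h U.bot_notMem, fun h => absurd h hat⟩
  have hx2 : ∀ a, n ≤ a → x a = c a := by
    intro a ha
    show (if a < n then (if a ∈ t then (⊤ : B) else ⊥) else c a) = c a
    rw [if_neg (not_lt.2 ha)]
  refine ⟨MU.mk U (rnm x), ?_, ?_⟩
  · rw [E_cn]
    intro hox
    have h1 : oc c x ≤ ⨆ k ∈ Finset.range n, ock c k x := by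
      rw [oc_eq]
      refine iSup_le fun k => ?_
      by_cases hk : k < n
      · exact le_iSup₂ (f := fun (k : ℕ) (_ : k ∈ Finset.range n) => ock c k x) k
          (Finset.mem_range.2 hk)
      · have h2 : ock c k x = ⊥ := by
          refine UF.eq_bot_of_forall fun V hV => ?_
          rw [ock_mem] at hV
          have h3 := hV k le_rfl (by omega)
          rw [hx2 k (not_lt.1 hk)] at h3
          tauto
        rw [h2]
        exact bot_le
    obtain ⟨k, hk, hk2⟩ := U.exists_of_biSup_mem (Finset.range n) (U.mem_of_le hox h1)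
    rw [ock_mem] at hk2
    by_cases hkn : 2 * k + 2 ≤ n
    · obtain ⟨a, ha1, ha2, ha3⟩ := hcon k hkn
      have h4 := hk2 a ha1 ha2
      rw [hx1 a (by omega)] at h4
      tauto
    · have h3 := hk2 (2 * k + 1) (by omega) (by omega)
      rw [hx2 (2 * k + 1) (by omega)] at h3
      tauto
  · intro z hz
    obtain ⟨a, ha, rfl⟩ := mem_nn U n z hz
    rw [E_rnm, E_fnm, hx1 a ha]

/-- the complement of `O(c)` is not null -/
theorem not_null (U : UF B) (c : ℕ → B) :
    ¬ IsNullC (MU.E U) (om U) (MU.mk U (cn c)) := by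
  classical
  intro h
  obtain ⟨n, hn, h0n, g, hg⟩ := h (nn U 0) (MU.mk U (rnm c)) (E_nn_om U 0) (isReal_rnm U c)
  -- `0 = n`, `1 = 0`, `2 = c`, `3 = cn c`
  have hP : FDef fun (M : Type 1) E w => E (w 1) (w 0) → ¬ ∃ g,
      InjOn E g (fun s => IsLev E (w 0) (w 1) (w 2) s ∧ Meets E (w 0) s (w 3))
        (fun s => IsLev E (w 0) (w 1) (w 2) s ∧ ¬ Meets E (w 0) s (w 3)) := by
    show Pool.Agent.H86.CM.FO _
    unfold InjOn
    repeat' first
      | exact Pool.Agent.H86.CM.fo_mem _ _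
      | exact Pool.Agent.H86.CM.fo_eq _ _
      | exact Pool.Agent.H86.CM.fo_app _ _ _
      | exact fo_lev _ _ _ _
      | exact fo_meets _ _ _
      | refine Pool.Agent.H86.CM.fo_not ?_
      | refine Pool.Agent.H86.CM.fo_and ?_ ?_
      | refine Pool.Agent.H86.CM.fo_imp ?_ ?_
      | refine Pool.Agent.H86.CM.fo_all ?_
      | refine Pool.Agent.H86.CM.fo_ex ?_
  refine ball_om hP (scons (chk B ((0 : ℕ) : Ordinal.{0})) (scons (rnm c) fun _ => cn c)) ⊤ ?_ U
    U.top_mem n hn h0n ⟨g, hg⟩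
  intro V _ m h0m
  rintro ⟨g, hg1, hg2, hg3⟩
  have hm : 0 < m := (E_nn V 0 m).1 h0m
  -- the subsets of `m`
  have hlev : ∀ t : Finset ℕ, t ⊆ Finset.range m →
      IsLev (MU.E V) (nn V m) (nn V 0) (MU.mk V (rnm c)) (MU.mk V (fnm t)) := by
    intro t ht
    refine ⟨fun z hz => ?_, fun z hz => ?_⟩
    · obtain ⟨a, ha, rfl⟩ := mem_fnm V t z hz
      exact (E_nn V a m).2 (Finset.mem_range.1 (ht ha))
    · obtain ⟨a, ha, _⟩ := mem_nn V 0 z hz
      exact absurd ha (Nat.not_lt_zero a)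
  let Me : Finset ℕ → Prop := fun t => Meets (MU.E V) (nn V m) (MU.mk V (fnm t)) (MU.mk V (cn c))
  have hG : ∀ t : Finset ℕ, ∃ t' : Finset ℕ, t ⊆ Finset.range m → Me t →
      t' ⊆ Finset.range m ∧ ¬ Me t' ∧ App (MU.E V) g (MU.mk V (fnm t)) (MU.mk V (fnm t')) := by
    intro t
    by_cases ht : t ⊆ Finset.range m ∧ Me t
    · obtain ⟨s, hs1, hs2⟩ := hg1 (MU.mk V (fnm t)) ⟨hlev t ht.1, ht.2⟩
      obtain ⟨⟨hs3, hs4⟩, hs5⟩ := hs1
      obtain ⟨t', ht', rfl⟩ := exists_fnm V m s hs3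
      exact ⟨t', fun _ _ => ⟨ht', hs5, hs2⟩⟩
    · exact ⟨∅, fun h1 h2 => absurd ⟨h1, h2⟩ ht⟩
  choose G hG using hG
  have hfinj : ∀ t t' : Finset ℕ, MU.mk V (fnm t) = MU.mk V (fnm t') → t = t' := by
    intro t t' h
    ext a
    rw [← E_fnm V t a, ← E_fnm V t' a, h]
  have h1 : ((Finset.range m).powerset.filter fun t => Me t).card ≤
      ((Finset.range m).powerset.filter fun t => ¬ Me t).card := by
    refine Finset.card_le_card_of_injOn G ?_ ?_
    · intro t ht
      rw [Finset.mem_coe, Finset.mem_filter, Finset.mem_powerset] at ht ⊢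
      have h2 := hG t ht.1 ht.2
      exact ⟨h2.1, h2.2.1⟩
    · intro t ht t' ht' h
      rw [Finset.mem_coe, Finset.mem_filter, Finset.mem_powerset] at ht ht'
      have h2 := hG t ht.1 ht.2
      have h3 := hG t' ht'.1 ht'.2
      rw [← h] at h3
      exact hfinj _ _ (hg3 _ _ _ ⟨hlev t ht.1, ht.2⟩ ⟨hlev t' ht'.1, ht'.2⟩ h2.2.2 h3.2.2)
  have h2 : ((Finset.range m).powerset.filter fun t => Me t).card +
      ((Finset.range m).powerset.filter fun t => ¬ Me t).card = 2 ^ m := by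
    rw [Finset.card_filter_add_card_filter_not, Finset.card_powerset, Finset.card_range]
  have h3 := cnt_lt hm ((Finset.range m).filter fun a => c a ∈ V)
  have h4 : ((Finset.range m).powerset.filter fun t => ¬ Me t).card ≤
      ((Finset.range m).powerset.filter fun t => ∃ k, 2 * k + 2 ≤ m ∧
        ∀ a, k ≤ a → a < 2 * k + 2 → (a ∈ t ↔ a ∉ (Finset.range m).filter fun a => c a ∈ V)).card := by
    refine Finset.card_le_card ?_
    intro t ht
    rw [Finset.mem_filter] at ht ⊢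
    refine ⟨ht.1, ?_⟩
    obtain ⟨k, hk, hk2⟩ := meets_of V c m t ht.2
    refine ⟨k, hk, fun a ha1 ha2 => ?_⟩
    rw [hk2 a ha1 ha2, Finset.mem_filter, Finset.mem_range]
    have h5 : a < m := by omega
    tauto
  omega

/-- some real does not belong to the hulls of `O(c)` -/
theorem exists_notMem (U : UF B) (c : ℕ → B) {f : MU U}
    (hf : IsHullOp (MU.E U) (om U) (IsFsigma (MU.E U) (om U)) f) :
    ∃ k, IsReal (MU.E U) (om U) k ∧ ∀ H, App (MU.E U) f (MU.mk U (on c)) H → ¬ MU.E U k H := by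
  by_contra hcon
  push Not at hcon
  obtain ⟨H0, hH0, _, hH2⟩ := hf.1 _ (isFsigma_on U c)
  have hall : ∀ k, IsReal (MU.E U) (om U) k → MU.E U k H0 := by
    intro k hk
    obtain ⟨H, hH, hkH⟩ := hcon k hk
    exact hf.2 _ _ H H0 (isFsigma_on U c) (isFsigma_on U c) hH hH0 (fun x hx => hx) k hkH
  refine not_null U c (hH2.2 (MU.mk U (cn c)) (isClosedR_cn U c) fun x hx => ?_)
  have hxr : IsReal (MU.E U) (om U) x := isReal_of_Yn U _ x hx
  refine ⟨hall x hxr, ?_⟩
  obtain ⟨x, rfl⟩ := exists_rnm U x hxr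
  rw [E_cn] at hx
  rw [E_on]
  exact hx

end HC
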