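import Pool.Agent.H71.HM.Defs

/-!
# Definitions for the statement: monotone `G_δ` hull operations inside a model of set theory

`(M, E)` is a structure for the language of set theory. `IsZFC`, `App` (`⟨x, y⟩ ∈ f`), `InjOn` are
from `Pool.Agent.H26.BV.Defs`, `IsOmega` from `Pool.Agent.H92.PK.Defs`, `IsReal` (subset of
`ω = w`) and `Agree` (`x` and `y` have the same elements below `n`) from `Pool.Agent.H71.HM.Defs`.
Reals are the subsets of `ω = w`, that is 0-1 sequences, with the usual topology: the basic sets are
the boxes of the reals which agree with a given real below a given `n ∈ ω`.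
-/

set_option autoImplicit false

universe v

namespace HC

open BV HM

variable {M : Type v}

/-- `U` is an open set of reals -/
def IsOpenR (E : M → M → Prop) (w U : M) : Prop :=
  (∀ x, E x U → IsReal E w x) ∧
  ∀ x, E x U → ∃ n, E n w ∧ ∀ y, IsReal E w y → Agree E n x y → E y U

/-- `K` is a closed set of reals -/
def IsClosedR (E : M → M → Prop) (w K : M) : Prop :=
  (∀ x, E x K → IsReal E w x) ∧
  ∀ x, IsReal E w x → (∀ n, E n w → ∃ y, E y K ∧ Agree E n x y) → E x K

/-- the relation `f` is a function on (a part of) `ω`, that is a sequence -/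
def IsSeq (E : M → M → Prop) (w f : M) : Prop :=
  ∀ n, E n w → ∀ a a', App E f n a → App E f n a' → a = a'

/-- `A` is a `G_δ` set of reals: the intersection of a sequence of open sets -/
def IsGdelta (E : M → M → Prop) (w A : M) : Prop :=
  ∃ f, IsSeq E w f ∧ (∀ n a, E n w → App E f n a → IsOpenR E w a) ∧
    ∀ x, E x A ↔ IsReal E w x ∧ ∀ n a, E n w → App E f n a → E x a

/-- `A` is an `F_σ` set of reals: the union of a sequence of closed sets -/
def IsFsigma (E : M → M → Prop) (w A : M) : Prop :=
  ∃ f, IsSeq E w f ∧ (∀ n a, E n w → App E f n a → IsClosedR E w a) ∧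
    ∀ x, E x A ↔ ∃ n a, E n w ∧ App E f n a ∧ E x a

/-- `A` is a Borel set of reals: it belongs to every family `S` which contains the open sets, the
complements of its elements and the unions of the sequences of its elements -/
def IsBorel (E : M → M → Prop) (w A : M) : Prop :=
  ∀ S, (∀ U, IsOpenR E w U → E U S) →
    (∀ B C, E B S → (∀ x, E x C ↔ IsReal E w x ∧ ¬ E x B) → E C S) →
    (∀ f C, IsSeq E w f → (∀ n a, E n w → App E f n a → E a S) →
      (∀ x, E x C ↔ ∃ n a, E n w ∧ App E f n a ∧ E x a) → E C S) → E A S

/-- `s` is one of the subsets of `n` which agree with `u` below `k`. These sets are the indices of the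
boxes of level `n` inside the box of the reals which agree with `u` below `k`. -/
def IsLev (E : M → M → Prop) (n k u s : M) : Prop := (∀ z, E z s → E z n) ∧ Agree E k s u

/-- some element of `K` agrees with `s` below `n` -/
def Meets (E : M → M → Prop) (n s K : M) : Prop := ∃ x, E x K ∧ Agree E n x s

/-- the closed set `K` is null: inside every box (of the reals which agree with `u` below `k`) there is
a level `n > k` such that at most half of the boxes of level `n` meet `K` -/
def IsNullC (E : M → M → Prop) (w K : M) : Prop :=
  ∀ k u, E k w → IsReal E w u → ∃ n, E n w ∧ E k n ∧ ∃ g,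
    InjOn E g (fun s => IsLev E n k u s ∧ Meets E n s K)
      (fun s => IsLev E n k u s ∧ ¬ Meets E n s K)

/-- the set `H` is a hull of its subset `A` (`A` and `H` are Borel sets): every closed set contained in
`H \ A` is null, that is `H \ A` is null -/
def IsHull (E : M → M → Prop) (w A H : M) : Prop :=
  (∀ x, E x A → E x H) ∧
  ∀ K, IsClosedR E w K → (∀ x, E x K → E x H ∧ ¬ E x A) → IsNullC E w K

/-- `f` is a monotone `G_δ` hull operation on the class `D` -/
def IsHullOp (E : M → M → Prop) (w : M) (D : M → Prop) (f : M) : Prop :=
  (∀ A, D A → ∃ H, App E f A H ∧ IsGdelta E w H ∧ IsHull E w A H) ∧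
  ∀ A A' H H', D A → D A' → App E f A H → App E f A' H' → (∀ x, E x A → E x A') →
    ∀ x, E x H → E x H'

end HC
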