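import Pool.Agent.H46.HC.Real
import Pool.Agent.H71.HF.VdimA

/-!
# Faithfulness: the notions of `HC.Defs` in the structure `(ZFSet, ∈)`
-/

set_option autoImplicit false

open Cardinal BV PK HM HF CN

namespace HC

open Classical in
/-- the 0-1 sequence coded by `z` -/
noncomputable def dc (z : ZFSet.{0}) : ℕ → Bool := fun n => decide (num n ∈ z)

/-- the code of a 0-1 sequence -/
noncomputable def ec (x : ℕ → Bool) : ZFSet.{0} := enc {n | x n = true}

theorem mem_ec (x : ℕ → Bool) (n : ℕ) : num n ∈ ec x ↔ x n = true := by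
  have h : num n ∈ ec x ↔ n ∈ dec (ec x) := Iff.rfl
  rw [h, ec, dec_enc]
  exact Iff.rfl

theorem dc_ec (x : ℕ → Bool) : dc (ec x) = x := by
  classical
  funext n
  unfold dc
  by_cases h : x n = true
  · rw [h, decide_eq_true_iff]
    exact (mem_ec x n).2 h
  · rw [Bool.not_eq_true] at h
    rw [h, decide_eq_false_iff_not, mem_ec, h]
    simp

theorem ec_dc {z : ZFSet.{0}} (hz : IsReal VE omz z) : ec (dc z) = z := by
  classical
  have h : {n | dc z n = true} = dec z := by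
    ext n
    show dc z n = true ↔ num n ∈ z
    unfold dc
    rw [decide_eq_true_iff]
  unfold ec
  rw [h, enc_dec hz]

theorem isReal_ec (x : ℕ → Bool) : IsReal VE omz (ec x) := isReal_enc _

theorem ec_inj {x y : ℕ → Bool} (h : ec x = ec y) : x = y := by
  rw [← dc_ec x, h, dc_ec]

/-- the set of 0-1 sequences with codes in `z` -/
def sD (z : ZFSet.{0}) : Set (ℕ → Bool) := {x | ec x ∈ z}

/-- the set of the codes of the elements of `A` -/
noncomputable def sE (A : Set (ℕ → Bool)) : ZFSet.{0} := ZFSet.range fun x : A => ec x.1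

/-- all elements of `z` are reals -/
def Rs (z : ZFSet.{0}) : Prop := ∀ x, x ∈ z → IsReal VE omz x

theorem mem_sE (A : Set (ℕ → Bool)) (z : ZFSet.{0}) : z ∈ sE A ↔ ∃ x ∈ A, z = ec x := by
  unfold sE
  rw [ZFSet.mem_range]
  constructor
  · rintro ⟨x, rfl⟩
    exact ⟨x.1, x.2, rfl⟩
  · rintro ⟨x, hx, rfl⟩
    exact ⟨⟨x, hx⟩, rfl⟩

theorem rs_sE (A : Set (ℕ → Bool)) : Rs (sE A) := by
  intro z hz
  obtain ⟨x, _, rfl⟩ := (mem_sE A z).1 hz
  exact isReal_ec x

theorem sD_sE (A : Set (ℕ → Bool)) : sD (sE A) = A := by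
  ext x
  show ec x ∈ sE A ↔ x ∈ A
  rw [mem_sE]
  constructor
  · rintro ⟨y, hy, h⟩
    rw [ec_inj h]
    exact hy
  · intro h
    exact ⟨x, h, rfl⟩

theorem ec_mem_sE (A : Set (ℕ → Bool)) (x : ℕ → Bool) : ec x ∈ sE A ↔ x ∈ A := by
  have h := sD_sE A
  constructor
  · intro hx
    rw [← h]
    exact hx
  · intro hx
    rw [← h] at hx
    exact hx

theorem sE_sD {z : ZFSet.{0}} (hz : Rs z) : sE (sD z) = z := by
  ext y
  rw [mem_sE]
  constructor
  · rintro ⟨x, hx, rfl⟩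
    exact hx
  · intro hy
    exact ⟨dc y, by show ec (dc y) ∈ z; rw [ec_dc (hz y hy)]; exact hy, (ec_dc (hz y hy)).symm⟩

theorem mem_iff_dc {z y : ZFSet.{0}} (hy : IsReal VE omz y) : y ∈ z ↔ dc y ∈ sD z := by
  show _ ↔ ec (dc y) ∈ z
  rw [ec_dc hy]

theorem agree_ag (n : ℕ) (x y : ZFSet.{0}) : Agree VE (num n) x y ↔ Ag n (dc x) (dc y) := by
  rw [agree_V]
  refine forall_congr' fun i => forall_congr' fun _ => ?_
  show (num i ∈ x ↔ num i ∈ y) ↔ dc x i = dc y i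
  unfold dc
  rw [decide_eq_decide]

theorem exists_num {P : ZFSet.{0} → Prop} : (∃ n, VE n omz ∧ P n) ↔ ∃ n : ℕ, P (num n) := by
  constructor
  · rintro ⟨n, hn, hP⟩
    obtain ⟨k, rfl⟩ := (mem_omz n).1 hn
    exact ⟨k, hP⟩
  · rintro ⟨n, hP⟩
    exact ⟨num n, (mem_omz _).2 ⟨n, rfl⟩, hP⟩

theorem forall_num {P : ZFSet.{0} → Prop} : (∀ n, VE n omz → P n) ↔ ∀ n : ℕ, P (num n) := by
  constructor
  · intro h n
    exact h _ ((mem_omz _).2 ⟨n, rfl⟩)
  · intro h n hn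
    obtain ⟨k, rfl⟩ := (mem_omz n).1 hn
    exact h k

theorem openR_V (z : ZFSet.{0}) : IsOpenR VE omz z ↔ Rs z ∧ IsOpen (sD z) := by
  unfold IsOpenR
  refine and_congr_right fun hz => ?_
  rw [isOpen_iff_ag]
  constructor
  · intro h x hx
    obtain ⟨n, hn⟩ := exists_num.1 (h (ec x) hx)
    refine ⟨n, fun y hy => ?_⟩
    refine hn (ec y) (isReal_ec y) ?_
    rw [agree_ag, dc_ec, dc_ec]
    exact hy
  · intro h x hx
    obtain ⟨n, hn⟩ := h (dc x) ((mem_iff_dc (hz x hx)).1 hx)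
    refine exists_num.2 ⟨n, fun y hy hxy => ?_⟩
    rw [agree_ag] at hxy
    exact (mem_iff_dc hy).2 (hn _ hxy)

theorem closedR_V (z : ZFSet.{0}) : IsClosedR VE omz z ↔ Rs z ∧ IsClosed (sD z) := by
  unfold IsClosedR
  refine and_congr_right fun hz => ?_
  rw [isClosed_iff_ag]
  constructor
  · intro h x hx
    refine h (ec x) (isReal_ec x) (forall_num.2 fun n => ?_)
    obtain ⟨y, hy, hxy⟩ := hx n
    refine ⟨ec y, hy, ?_⟩
    rw [agree_ag, dc_ec, dc_ec]
    exact hxy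
  · intro h x hx hxz
    rw [forall_num] at hxz
    refine (mem_iff_dc hx).2 (h (dc x) fun n => ?_)
    obtain ⟨y, hy, hxy⟩ := hxz n
    rw [agree_ag] at hxy
    exact ⟨dc y, (mem_iff_dc (hz y hy)).1 hy, hxy⟩

theorem exists_sq (A : ℕ → ZFSet.{0}) : ∃ f : ZFSet.{0}, ∀ (n : ℕ) (a : ZFSet.{0}),
    App VE f (num n) a ↔ a = A n := by
  refine ⟨ZFSet.range fun n : ℕ => ZFSet.pair (num n) (A n), fun n a => ?_⟩
  rw [app_V, ZFSet.mem_range]
  constructor
  · rintro ⟨m, hm⟩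
    obtain ⟨h1, h2⟩ := ZFSet.pair_inj.1 hm
    rw [← h2, VDIMA_num_inj h1]
  · rintro rfl
    exact ⟨n, rfl⟩

theorem isSeq_V (f : ZFSet.{0}) : IsSeq VE omz f ↔
    ∀ (n : ℕ) (a a' : ZFSet.{0}), App VE f (num n) a → App VE f (num n) a' → a = a' := by
  unfold IsSeq
  rw [forall_num]

theorem gdelta_V (z : ZFSet.{0}) : IsGdelta VE omz z ↔ Rs z ∧ IsGδ (sD z) := by
  classical
  constructor
  · rintro ⟨f, hf, hfo, hz⟩
    rw [isSeq_V] at hf
    refine ⟨fun x hx => ((hz x).1 hx).1, ?_⟩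
    have h1 : sD z = ⋂ n : ℕ, {x | ∀ a, App VE f (num n) a → ec x ∈ a} := by
      ext x
      rw [Set.mem_iInter]
      show ec x ∈ z ↔ ∀ n, ∀ a, App VE f (num n) a → ec x ∈ a
      have h2 := hz (ec x)
      have h3 : (∀ n a, VE n omz → App VE f n a → VE (ec x) a) ↔
          ∀ n : ℕ, ∀ a, App VE f (num n) a → ec x ∈ a := by
        rw [← forall_num (P := fun n => ∀ a, App VE f n a → ec x ∈ a)]
        exact ⟨fun h n hn a ha => h n a hn ha, fun h n a hn ha => h n hn a ha⟩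
      rw [h3] at h2
      exact h2.trans ⟨fun h => h.2, fun h => ⟨isReal_ec x, h⟩⟩
    rw [h1]
    refine IsGδ.iInter_of_isOpen fun n => ?_
    by_cases hex : ∃ a, App VE f (num n) a
    · obtain ⟨a, ha⟩ := hex
      have h2 : {x | ∀ a, App VE f (num n) a → ec x ∈ a} = sD a := by
        ext x
        constructor
        · intro h
          exact h a ha
        · intro h a' ha'
          rw [hf n a' a ha' ha]
          exact h
      rw [h2]
      exact ((openR_V a).1 (hfo (num n) a ((mem_omz _).2 ⟨n, rfl⟩) ha)).2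
    · have h2 : {x | ∀ a, App VE f (num n) a → ec x ∈ a} = Set.univ := by
        ext x
        simp only [Set.mem_univ, iff_true]
        intro a ha
        exact absurd ⟨a, ha⟩ hex
      rw [h2]
      exact isOpen_univ
  · rintro ⟨hz, hG⟩
    obtain ⟨V, hVo, hV⟩ := isGδ_iff_eq_iInter_nat.1 hG
    obtain ⟨f, hf⟩ := exists_sq fun n => sE (V n)
    refine ⟨f, ?_, ?_, ?_⟩
    · rw [isSeq_V]
      intro n a a' h1 h2
      rw [(hf n a).1 h1, (hf n a').1 h2]
    · intro n a hn ha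
      obtain ⟨k, rfl⟩ := (mem_omz n).1 hn
      rw [(hf k a).1 ha, openR_V, sD_sE]
      exact ⟨rs_sE _, hVo k⟩
    · intro x
      constructor
      · intro hx
        have hxr := hz x hx
        refine ⟨hxr, fun n a hn ha => ?_⟩
        obtain ⟨k, rfl⟩ := (mem_omz n).1 hn
        rw [(hf k a).1 ha]
        show x ∈ sE (V k)
        rw [mem_iff_dc hxr, sD_sE]
        have h1 := (mem_iff_dc hxr).1 hx
        rw [hV] at h1
        exact Set.mem_iInter.1 h1 k
      · rintro ⟨hxr, h⟩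
        show x ∈ z
        rw [mem_iff_dc hxr, hV, Set.mem_iInter]
        intro k
        have h1 : x ∈ sE (V k) := h (num k) (sE (V k)) ((mem_omz _).2 ⟨k, rfl⟩) ((hf k _).2 rfl)
        rw [mem_iff_dc hxr, sD_sE] at h1
        exact h1

/-- decoding of unions of sequences -/
theorem sD_union {z f : ZFSet.{0}}
    (hz : ∀ x, VE x z ↔ ∃ n a, VE n omz ∧ App VE f n a ∧ VE x a) :
    sD z = ⋃ n : ℕ, {x | ∃ a, App VE f (num n) a ∧ ec x ∈ a} := by
  ext x
  rw [Set.mem_iUnion]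
  show ec x ∈ z ↔ _
  have h2 := hz (ec x)
  refine h2.trans ?_
  constructor
  · rintro ⟨n, a, hn, ha, hx⟩
    obtain ⟨k, rfl⟩ := (mem_omz n).1 hn
    exact ⟨k, a, ha, hx⟩
  · rintro ⟨k, a, ha, hx⟩
    exact ⟨num k, a, (mem_omz _).2 ⟨k, rfl⟩, ha, hx⟩

theorem sD_part {f : ZFSet.{0}} (hf : IsSeq VE omz f) (n : ℕ) :
    ({x | ∃ a, App VE f (num n) a ∧ ec x ∈ a} = ∅) ∨
      ∃ a, App VE f (num n) a ∧ {x | ∃ a, App VE f (num n) a ∧ ec x ∈ a} = sD a := by
  rw [isSeq_V] at hf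
  by_cases hex : ∃ a, App VE f (num n) a
  · obtain ⟨a, ha⟩ := hex
    right
    refine ⟨a, ha, ?_⟩
    ext x
    constructor
    · rintro ⟨a', ha', hx⟩
      rw [hf n a' a ha' ha] at hx
      exact hx
    · intro h
      exact ⟨a, ha, h⟩
  · left
    ext x
    simp only [Set.mem_empty_iff_false, iff_false]
    rintro ⟨a, ha, _⟩
    exact hex ⟨a, ha⟩

theorem fsigma_V (z : ZFSet.{0}) : IsFsigma VE omz z ↔ Rs z ∧ sD z ∈ Fsg2 := by
  constructor
  · rintro ⟨f, hf, hfc, hz⟩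
    constructor
    · intro x hx
      obtain ⟨n, a, hn, ha, hxa⟩ := (hz x).1 hx
      exact (hfc n a hn ha).1 x hxa
    · refine ⟨fun n => {x | ∃ a, App VE f (num n) a ∧ ec x ∈ a}, fun n => ?_, sD_union hz⟩
      show IsClosed {x | ∃ a, App VE f (num n) a ∧ ec x ∈ a}
      rcases sD_part hf n with h | ⟨a, ha, h⟩
      · rw [h]
        exact isClosed_empty
      · rw [h]
        exact ((closedR_V a).1 (hfc (num n) a ((mem_omz _).2 ⟨n, rfl⟩) ha)).2
  · rintro ⟨hz, F, hFc, hF⟩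
    obtain ⟨f, hf⟩ := exists_sq fun n => sE (F n)
    refine ⟨f, ?_, ?_, ?_⟩
    · rw [isSeq_V]
      intro n a a' h1 h2
      rw [(hf n a).1 h1, (hf n a').1 h2]
    · intro n a hn ha
      obtain ⟨k, rfl⟩ := (mem_omz n).1 hn
      rw [(hf k a).1 ha, closedR_V, sD_sE]
      exact ⟨rs_sE _, hFc k⟩
    · intro x
      constructor
      · intro hx
        have hxr := hz x hx
        have h1 := (mem_iff_dc hxr).1 hx
        rw [hF] at h1
        obtain ⟨k, hk⟩ := Set.mem_iUnion.1 h1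
        refine ⟨num k, sE (F k), (mem_omz _).2 ⟨k, rfl⟩, (hf k _).2 rfl, ?_⟩
        show x ∈ sE (F k)
        rw [mem_iff_dc hxr, sD_sE]
        exact hk
      · rintro ⟨n, a, hn, ha, hxa⟩
        obtain ⟨k, rfl⟩ := (mem_omz n).1 hn
        rw [(hf k a).1 ha] at hxa
        have hxr : IsReal VE omz x := rs_sE _ x hxa
        show x ∈ z
        have h1 : dc x ∈ sD (sE (F k)) := (mem_iff_dc hxr).1 hxa
        rw [sD_sE] at h1
        rw [mem_iff_dc hxr, hF]
        exact Set.mem_iUnion.2 ⟨k, h1⟩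

theorem borel_V (z : ZFSet.{0}) : IsBorel VE omz z ↔ Rs z ∧ sD z ∈ Bor2 := by
  constructor
  · intro h
    have hS : ∀ y, y ∈ (ZFSet.range fun A : Bor2 => sE A.1) ↔ ∃ A, MeasurableSet A ∧ y = sE A := by
      intro y
      rw [ZFSet.mem_range]
      constructor
      · rintro ⟨A, rfl⟩
        exact ⟨A.1, A.2, rfl⟩
      · rintro ⟨A, hA, rfl⟩
        exact ⟨⟨A, hA⟩, rfl⟩
    have h1 : z ∈ ZFSet.range fun A : Bor2 => sE A.1 := by
      refine h _ ?_ ?_ ?_
      · intro V hV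
        rw [openR_V] at hV
        exact (hS V).2 ⟨sD V, hV.2.measurableSet, (sE_sD hV.1).symm⟩
      · intro D C hD hC
        obtain ⟨A, hA, rfl⟩ := (hS D).1 hD
        refine (hS C).2 ⟨Aᶜ, hA.compl, ?_⟩
        ext x
        have h2 := hC x
        rw [mem_sE]
        refine h2.trans ?_
        constructor
        · rintro ⟨hx1, hx2⟩
          refine ⟨dc x, fun hx => hx2 ?_, (ec_dc hx1).symm⟩
          show x ∈ sE A
          rw [mem_iff_dc hx1, sD_sE]
          exact hx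
        · rintro ⟨y, hy, rfl⟩
          exact ⟨isReal_ec y, fun hx => hy ((ec_mem_sE A y).1 hx)⟩
      · intro f C hf hfS hC
        have hCr : Rs C := by
          intro x hx
          obtain ⟨n, a, hn, ha, hxa⟩ := (hC x).1 hx
          obtain ⟨A, _, rfl⟩ := (hS a).1 (hfS n a hn ha)
          exact rs_sE A x hxa
        refine (hS C).2 ⟨sD C, ?_, (sE_sD hCr).symm⟩
        rw [sD_union hC]
        refine MeasurableSet.iUnion fun n => ?_
        rcases sD_part hf n with h2 | ⟨a, ha, h2⟩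
        · rw [h2]
          exact MeasurableSet.empty
        · rw [h2]
          obtain ⟨A, hA, rfl⟩ := (hS a).1 (hfS (num n) a ((mem_omz _).2 ⟨n, rfl⟩) ha)
          rw [sD_sE]
          exact hA
    obtain ⟨A, hA, rfl⟩ := (hS z).1 h1
    refine ⟨rs_sE A, ?_⟩
    rw [sD_sE]
    exact hA
  · rintro ⟨hz, hzB⟩ S h1 h2 h3
    have key : ∀ A : Set (ℕ → Bool), MeasurableSet A → sE A ∈ S := by
      intro A hA
      induction A, hA using MeasurableSet.induction_on_open with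
      | isOpen V hV =>
        refine h1 (sE V) ?_
        rw [openR_V, sD_sE]
        exact ⟨rs_sE V, hV⟩
      | compl A hA ih =>
        refine h2 (sE A) (sE Aᶜ) ih fun x => ?_
        show x ∈ sE Aᶜ ↔ _
        rw [mem_sE]
        constructor
        · rintro ⟨y, hy, rfl⟩
          exact ⟨isReal_ec y, fun hx => hy ((ec_mem_sE A y).1 hx)⟩
        · rintro ⟨hx1, hx2⟩
          refine ⟨dc x, fun hx => hx2 ?_, (ec_dc hx1).symm⟩
          show x ∈ sE A
          rw [mem_iff_dc hx1, sD_sE]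
          exact hx
      | iUnion F _ hF ih =>
        obtain ⟨f, hf⟩ := exists_sq fun n => sE (F n)
        refine h3 f (sE (⋃ i, F i)) ?_ ?_ ?_
        · rw [isSeq_V]
          intro n a a' h1 h2
          rw [(hf n a).1 h1, (hf n a').1 h2]
        · intro n a hn ha
          obtain ⟨k, rfl⟩ := (mem_omz n).1 hn
          rw [(hf k a).1 ha]
          exact ih k
        · intro x
          show x ∈ sE (⋃ i, F i) ↔ _
          rw [mem_sE]
          constructor
          · rintro ⟨y, hy, rfl⟩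
            obtain ⟨k, hk⟩ := Set.mem_iUnion.1 hy
            exact ⟨num k, sE (F k), (mem_omz _).2 ⟨k, rfl⟩, (hf k _).2 rfl, (ec_mem_sE _ y).2 hk⟩
          · rintro ⟨n, a, hn, ha, hxa⟩
            obtain ⟨k, rfl⟩ := (mem_omz n).1 hn
            rw [(hf k a).1 ha] at hxa
            obtain ⟨y, hy, rfl⟩ := (mem_sE (F k) x).1 hxa
            exact ⟨y, Set.mem_iUnion.2 ⟨k, hy⟩, rfl⟩
    have h4 := key (sD z) hzB
    rw [sE_sD hz] at h4
    exact h4

theorem lev_V (n k : ℕ) (u s : ZFSet.{0}) : IsLev VE (num n) (num k) u s ↔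
    ∃ t ∈ Lev n k (dc u), s = ec (fs t) := by
  constructor
  · rintro ⟨h1, h2⟩
    have hsr : IsReal VE omz s := by
      intro z hz
      obtain ⟨l, -, rfl⟩ := (mem_num _ _).1 (h1 z hz)
      exact (mem_omz _).2 ⟨l, rfl⟩
    have h3 : fs (cut n (dc s)) = dc s := by
      funext i
      by_cases hi : i < n
      · exact ag_cut n (dc s) i hi
      · have h4 : dc s i = false := by
          unfold dc
          rw [decide_eq_false_iff_not]
          intro h5
          exact hi ((num_mem_num _ _).1 (h1 _ h5))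
        rw [h4]
        unfold fs
        rw [decide_eq_false_iff_not]
        intro h5
        exact hi (Finset.mem_range.1 (cut_subset n _ h5))
    refine ⟨cut n (dc s), ?_, ?_⟩
    · rw [mem_Lev]
      refine ⟨cut_subset n _, ?_⟩
      rw [h3]
      exact (agree_ag k s u).1 h2
    · rw [h3, ec_dc hsr]
  · rintro ⟨t, ht, rfl⟩
    rw [mem_Lev] at ht
    refine ⟨fun z hz => ?_, ?_⟩
    · obtain ⟨i, hi, rfl⟩ := (VDIMA_mem_enc _ z).1 hz
      have hi' : i ∈ t := by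
        have h5 : fs t i = true := hi
        unfold fs at h5
        simpa using h5
      exact (num_mem_num _ _).2 (Finset.mem_range.1 (ht.1 hi'))
    · rw [agree_ag, dc_ec]
      exact ht.2

theorem meets_V {K : ZFSet.{0}} (hK : Rs K) (n : ℕ) (x : ℕ → Bool) :
    Meets VE (num n) (ec x) K ↔ ∃ y ∈ sD K, Ag n y x := by
  constructor
  · rintro ⟨y, hy, hyx⟩
    rw [agree_ag, dc_ec] at hyx
    exact ⟨dc y, (mem_iff_dc (hK y hy)).1 hy, hyx⟩
  · rintro ⟨y, hy, hyx⟩
    refine ⟨ec y, hy, ?_⟩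
    rw [agree_ag, dc_ec, dc_ec]
    exact hyx

theorem fs_inj {s t : Finset ℕ} (h : fs s = fs t) : s = t := by
  ext i
  have h1 := congrFun h i
  unfold fs at h1
  simpa using h1

theorem nullC_V {K : ZFSet.{0}} (hK : Rs K) : IsNullC VE omz K ↔ Nullc (sD K) := by
  classical
  have hmt : ∀ (n : ℕ) (t : Finset ℕ), Meets VE (num n) (ec (fs t)) K ↔ Mt n t (sD K) :=
    fun n t => meets_V hK n (fs t)
  have hmain : ∀ (k n : ℕ) (u : ZFSet.{0}),
      (∃ g, InjOn VE g (fun s => IsLev VE (num n) (num k) u s ∧ Meets VE (num n) s K)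
        (fun s => IsLev VE (num n) (num k) u s ∧ ¬ Meets VE (num n) s K)) ↔
      ((Lev n k (dc u)).filter fun s => Mt n s (sD K)).card ≤
        ((Lev n k (dc u)).filter fun s => ¬ Mt n s (sD K)).card := by
    intro k n u
    constructor
    · rintro ⟨g, hg1, hg2, hg3⟩
      have hex : ∀ s ∈ (Lev n k (dc u)).filter fun s => Mt n s (sD K), ∃ t,
          t ∈ ((Lev n k (dc u)).filter fun s => ¬ Mt n s (sD K)) ∧
            App VE g (ec (fs s)) (ec (fs t)) := by
        intro s hs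
        rw [Finset.mem_filter] at hs
        obtain ⟨y, ⟨hy1, hy2⟩, hy3⟩ := hg1 (ec (fs s)) ⟨(lev_V n k u _).2 ⟨s, hs.1, rfl⟩,
          (hmt n s).2 hs.2⟩
        obtain ⟨t, ht, rfl⟩ := (lev_V n k u y).1 hy1
        refine ⟨t, Finset.mem_filter.2 ⟨ht, ?_⟩, hy3⟩
        rw [← hmt]
        exact hy2
      choose! G hG using hex
      refine Finset.card_le_card_of_injOn G (fun s hs => (hG s hs).1) ?_
      intro s hs s' hs' h
      have h1 := (hG s hs).2
      have h2 := (hG s' hs').2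
      rw [← h] at h2
      rw [Finset.mem_coe, Finset.mem_filter] at hs hs'
      have h3 := hg3 _ _ _ ⟨(lev_V n k u _).2 ⟨s, hs.1, rfl⟩, (hmt n s).2 hs.2⟩
        ⟨(lev_V n k u _).2 ⟨s', hs'.1, rfl⟩, (hmt n s').2 hs'.2⟩ h1 h2
      exact fs_inj (ec_inj h3)
    · intro h
      obtain ⟨i⟩ : Nonempty (((Lev n k (dc u)).filter fun s => Mt n s (sD K)) ↪
          ((Lev n k (dc u)).filter fun s => ¬ Mt n s (sD K))) :=
        Function.Embedding.nonempty_of_card_le (by simpa using h)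
      have happ : ∀ x y, App VE (ZFSet.range fun s : ((Lev n k (dc u)).filter fun s =>
          Mt n s (sD K)) => ZFSet.pair (ec (fs s.1)) (ec (fs (i s).1))) x y ↔
          ∃ s, x = ec (fs s.1) ∧ y = ec (fs (i s).1) := by
        intro x y
        rw [app_V, ZFSet.mem_range]
        constructor
        · rintro ⟨s, hs⟩
          obtain ⟨h1, h2⟩ := ZFSet.pair_inj.1 hs
          exact ⟨s, h1.symm, h2.symm⟩
        · rintro ⟨s, rfl, rfl⟩
          exact ⟨s, rfl⟩
      refine ⟨ZFSet.range fun s : ((Lev n k (dc u)).filter fun s =>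
          Mt n s (sD K)) => ZFSet.pair (ec (fs s.1)) (ec (fs (i s).1)), ?_, ?_, ?_⟩
      · rintro x ⟨hx1, hx2⟩
        obtain ⟨t, ht, rfl⟩ := (lev_V n k u x).1 hx1
        rw [hmt] at hx2
        have hts : t ∈ (Lev n k (dc u)).filter fun s => Mt n s (sD K) :=
          Finset.mem_filter.2 ⟨ht, hx2⟩
        have h2 := (i ⟨t, hts⟩).2
        rw [Finset.mem_filter] at h2
        refine ⟨ec (fs (i ⟨t, hts⟩).1), ⟨(lev_V n k u _).2 ⟨_, h2.1, rfl⟩, ?_⟩,
          (happ _ _).2 ⟨⟨t, hts⟩, rfl, rfl⟩⟩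
        rw [hmt]
        exact h2.2
      · intro x y y' _ h1 h2
        obtain ⟨s, rfl, rfl⟩ := (happ _ _).1 h1
        obtain ⟨s', h3, rfl⟩ := (happ _ _).1 h2
        rw [Subtype.ext (fs_inj (ec_inj h3))]
      · intro x x' y _ _ h1 h2
        obtain ⟨s, rfl, rfl⟩ := (happ _ _).1 h1
        obtain ⟨s', rfl, h3⟩ := (happ _ _).1 h2
        have h4 : i s = i s' := Subtype.ext (fs_inj (ec_inj h3))
        rw [i.injective h4]
  constructor
  · intro h k u
    obtain ⟨n, hn1, hn2⟩ := exists_num.1 (h (num k) (ec u) ((mem_omz _).2 ⟨k, rfl⟩) (isReal_ec u))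
    have h2 := (hmain k n (ec u)).1 hn2
    rw [dc_ec] at h2
    exact ⟨n, (num_mem_num _ _).1 hn1, h2⟩
  · intro h k u hk hu
    obtain ⟨k, rfl⟩ := (mem_omz k).1 hk
    obtain ⟨n, hn1, hn2⟩ := h k (dc u)
    exact exists_num.2 ⟨n, (num_mem_num _ _).2 hn1, (hmain k n u).2 hn2⟩

theorem hull_V {A H : ZFSet.{0}} (hA : Rs A) (_ : Rs H) (hAm : MeasurableSet (sD A))
    (hHm : MeasurableSet (sD H)) :
    IsHull VE omz A H ↔ sD A ⊆ sD H ∧ coin (sD H \ sD A) = 0 := by
  constructor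
  · rintro ⟨h1, h2⟩
    refine ⟨fun x hx => h1 (ec x) hx, ?_⟩
    by_contra hne
    obtain ⟨K, hKs, hKc, hK⟩ := (hHm.diff hAm).exists_lt_isClosed_of_ne_top
      (MeasureTheory.measure_ne_top coin _) (pos_iff_ne_zero.2 hne)
    have h3 := h2 (sE K) ((closedR_V _).2 ⟨rs_sE K, by rw [sD_sE]; exact hKc⟩) (by
      intro x hx
      obtain ⟨y, hy, rfl⟩ := (mem_sE K x).1 hx
      exact hKs hy)
    rw [nullC_V (rs_sE K), sD_sE, nullc_iff hKc] at h3
    rw [h3] at hK
    exact lt_irrefl _ hK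
  · rintro ⟨h1, h2⟩
    refine ⟨fun x hx => ?_, fun K hK hKs => ?_⟩
    · show x ∈ H
      rw [mem_iff_dc (hA x hx)]
      exact h1 ((mem_iff_dc (hA x hx)).1 hx)
    · rw [closedR_V] at hK
      rw [nullC_V hK.1, nullc_iff hK.2]
      refine MeasureTheory.measure_mono_null ?_ h2
      intro x hx
      exact hKs (ec x) hx

/-- the general form of the faithfulness of `IsHullOp` -/
theorem hullOp_V {D : ZFSet.{0} → Prop} {𝒟 : Set (Set (ℕ → Bool))} (h𝒟 : 𝒟 ⊆ Bor2)
    (hD : ∀ z, D z ↔ Rs z ∧ sD z ∈ 𝒟) :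
    (∃ f, IsHullOp VE omz D f) ↔ ∃ φ, HullOp2 𝒟 φ := by
  classical
  constructor
  · rintro ⟨f, hf1, hf2⟩
    have h1 : ∀ A : Set (ℕ → Bool), ∃ H : ZFSet.{0}, A ∈ 𝒟 → App VE f (sE A) H ∧
        IsGdelta VE omz H ∧ IsHull VE omz (sE A) H := by
      intro A
      by_cases hA : A ∈ 𝒟
      · obtain ⟨H, hH⟩ := hf1 (sE A) ((hD _).2 ⟨rs_sE A, by rw [sD_sE]; exact hA⟩)
        exact ⟨H, fun _ => hH⟩
      · exact ⟨∅, fun h => absurd h hA⟩
    choose H hH using h1
    refine ⟨fun A => sD (H A), fun A hA => ?_, fun A hA A' hA' hAA' => ?_⟩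
    · obtain ⟨_, h2, h3⟩ := hH A hA
      rw [gdelta_V] at h2
      rw [hull_V (rs_sE A) h2.1 (by rw [sD_sE]; exact h𝒟 hA) h2.2.measurableSet, sD_sE] at h3
      exact ⟨h2.2, h3⟩
    · intro x hx
      refine hf2 (sE A) (sE A') (H A) (H A') ((hD _).2 ⟨rs_sE A, by rw [sD_sE]; exact hA⟩)
        ((hD _).2 ⟨rs_sE A', by rw [sD_sE]; exact hA'⟩) (hH A hA).1 (hH A' hA').1 ?_ (ec x) hx
      intro y hy
      obtain ⟨z, hz, rfl⟩ := (mem_sE A y).1 hy
      exact (mem_sE A' _).2 ⟨z, hAA' hz, rfl⟩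
  · rintro ⟨φ, hφ1, hφ2⟩
    have happ : ∀ x y, App VE (ZFSet.range fun A : 𝒟 => ZFSet.pair (sE A.1) (sE (φ A.1))) x y ↔
        ∃ A ∈ 𝒟, x = sE A ∧ y = sE (φ A) := by
      intro x y
      rw [app_V, ZFSet.mem_range]
      constructor
      · rintro ⟨s, hs⟩
        obtain ⟨h1, h2⟩ := ZFSet.pair_inj.1 hs
        exact ⟨s.1, s.2, h1.symm, h2.symm⟩
      · rintro ⟨A, hA, rfl, rfl⟩
        exact ⟨⟨A, hA⟩, rfl⟩
    refine ⟨ZFSet.range fun A : 𝒟 => ZFSet.pair (sE A.1) (sE (φ A.1)), ?_, ?_⟩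
    · intro A hA
      rw [hD] at hA
      obtain ⟨h1, h2, h3⟩ := hφ1 (sD A) hA.2
      refine ⟨sE (φ (sD A)), (happ _ _).2 ⟨sD A, hA.2, (sE_sD hA.1).symm, rfl⟩, ?_, ?_⟩
      · rw [gdelta_V, sD_sE]
        exact ⟨rs_sE _, h1⟩
      · rw [hull_V hA.1 (rs_sE _) (h𝒟 hA.2) (by rw [sD_sE]; exact h1.measurableSet), sD_sE]
        exact ⟨h2, h3⟩
    · intro A A' H H' _ _ hH hH' hAA' x hx
      obtain ⟨B1, hB1, rfl, rfl⟩ := (happ _ _).1 hH
      obtain ⟨B2, hB2, rfl, rfl⟩ := (happ _ _).1 hH'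
      obtain ⟨y, hy, rfl⟩ := (mem_sE _ x).1 hx
      refine (mem_sE _ _).2 ⟨y, hφ2 B1 hB1 B2 hB2 ?_ hy, rfl⟩
      intro z hz
      exact (ec_mem_sE B2 z).1 (hAA' _ ((ec_mem_sE B1 z).2 hz))

theorem fsg2_sub : Fsg2 ⊆ Bor2 := by
  rintro A ⟨F, hF, rfl⟩
  exact MeasurableSet.iUnion fun n => (hF n).measurableSet

/-- (F1) -/
theorem borelOp_V {w : ZFSet.{0}} (hw : IsOmega VE w) :
    (∃ f, IsHullOp VE w (IsBorel VE w) f) ↔ ∃ φ, HullOp2 Bor2 φ := by
  have h : w = omz := (isOmega_V w).1 hw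
  subst h
  exact hullOp_V subset_rfl borel_V

theorem fsigmaOp_V {w : ZFSet.{0}} (hw : IsOmega VE w) :
    (∃ f, IsHullOp VE w (IsFsigma VE w) f) ↔ ∃ φ, HullOp2 Fsg2 φ := by
  have h : w = omz := (isOmega_V w).1 hw
  subst h
  exact hullOp_V fsg2_sub fsigma_V

end HC
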