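import Pool.Agent.H46.HC.Cnt

/-!
# In the Cohen model there is no monotone `G_δ` hull operation on the `F_σ` sets
-/

set_option autoImplicit false

namespace HC

open BV PK HM Pool.Agent.H86.CM

variable {B : Type} [CompleteBooleanAlgebra B]

theorem hm_real_def (U : UF B) (x : BSet B) (hx : HM.IsReal (MU.E U) (om U) (MU.mk U x)) :
    MU.mk U x = MU.mk U (rnm fun n => bmem (chk B (n : Ordinal.{0})) x) := by
  set y : ℕ → B := fun n => bmem (chk B (n : Ordinal.{0})) x with hy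
  have hdef : FDef fun (M : Type 1) E w => (E (w 0) (w 1) ↔ E (w 0) (w 2)) :=
    (FDef.mem 0 1).iff (FDef.mem 0 2)
  have key := ball_om hdef (scons x (fun _ => rnm y)) ⊤ (by
    intro V _ n
    show MU.E V (nn V n) (MU.mk V x) ↔ MU.E V (nn V n) (MU.mk V (rnm y))
    rw [E_rnm]
    exact Iff.rfl) U U.top_mem
  refine MU.ext_E U _ _ fun z => ?_
  constructor
  · intro hz
    exact (key z (hx z hz)).1 hz
  · intro hz
    exact (key z (isReal_rnm U y z hz)).2 hz

theorem ag_mem (U : UF B) (l : ℕ) (y : ℕ → B) (s : Finset ℕ) :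
    ag l y s ∈ U ↔ ∀ a < l, (a ∈ s ↔ y a ∈ U) := by
  classical
  unfold ag
  constructor
  · intro h a ha
    have h1 := U.mem_of_iInf (U.mem_of_iInf h a) ha
    by_cases hs : a ∈ s
    · rw [if_pos hs] at h1
      exact ⟨fun _ => h1, fun _ => hs⟩
    · rw [if_neg hs, UF.compl_mem_iff] at h1
      exact ⟨fun h => absurd h hs, fun h => absurd h h1⟩
  · intro h
    have h1 : (⨅ a ∈ Finset.range l, if a ∈ s then y a else (y a)ᶜ) ∈ U := by
      refine fin_iInf_mem U _ _ fun a ha => ?_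
      rw [Finset.mem_range] at ha
      by_cases hs : a ∈ s
      · rw [if_pos hs]
        exact (h a ha).1 hs
      · rw [if_neg hs, UF.compl_mem_iff]
        exact fun h' => hs ((h a ha).2 h')
    refine U.mem_of_le h1 (le_iInf fun a => le_iInf fun ha => ?_)
    exact iInf₂_le a (Finset.mem_range.2 ha)

/-- `H` is the value of `f` at `C`, it contains `C`, and it is the intersection of the sequence `g` of
open sets -/
def IsVal (M : Type 1) (E : M → M → Prop) (w f C H g : M) : Prop :=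
  App E f C H ∧ (∀ x, E x C → E x H) ∧ IsSeq E w g ∧
    (∀ n a, E n w → App E g n a → IsOpenR E w a) ∧
    ∀ x, E x H ↔ HM.IsReal E w x ∧ ∀ n a, E n w → App E g n a → E x a

theorem fo_isVal (i j k l m : ℕ) :
    FO fun M E w => IsVal M E (w i) (w j) (w k) (w l) (w m) := by
  unfold IsVal
  repeat' first
    | exact fo_mem _ _
    | exact fo_eq _ _
    | exact fo_app _ _ _
    | exact fo_seq _ _
    | exact fo_openR _ _
    | exact fo_real _ _
    | refine fo_iff ?_ ?_
    | refine fo_and ?_ ?_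
    | refine fo_imp ?_ ?_
    | refine fo_all ?_

/-- the box of `s` of level `l` is contained in the elements of the sequence `g` with index `m` -/
def BoxIn (M : Type 1) (E : M → M → Prop) (w g m l s : M) : Prop :=
  ∀ a, App E g m a → ∀ z, HM.IsReal E w z → HM.Agree E l z s → E z a

theorem fo_boxIn (i j k l m : ℕ) :
    FO fun M E w => BoxIn M E (w i) (w j) (w k) (w l) (w m) := by
  unfold BoxIn
  repeat' first
    | exact fo_mem _ _
    | exact fo_app _ _ _
    | exact fo_real _ _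
    | exact fo_agree _ _ _
    | refine fo_imp ?_ ?_
    | refine fo_all ?_

theorem no_op (hB : Prin B) (U : UF B) (f : MU U) :
    ¬ IsHullOp (MU.E U) (om U) (IsFsigma (MU.E U) (om U)) f := by
  classical
  intro hf
  obtain ⟨F, rfl⟩ := MU.mk_surj U f
  obtain ⟨X, c, hpr⟩ := hB
  -- the Boolean value of the hypothesis
  obtain ⟨b, hb⟩ := exists_val (B := B) (fo_hullOp 0 1) (scons (chk B Ordinal.omega0) fun _ => F)
  have hbV : ∀ V : UF B, b ∈ V → IsHullOp (MU.E V) (om V) (IsFsigma (MU.E V) (om V))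
      (MU.mk V F) := fun V hV => (hb V).1 hV
  have hbU : b ∈ U := (hb U).2 hf
  -- the reals `k i`
  have hk : ∀ i : X, ∃ y : ℕ → B, ∀ V : UF B, b ∈ V → ∀ H,
      App (MU.E V) (MU.mk V F) (MU.mk V (on (c i))) H → ¬ MU.E V (MU.mk V (rnm y)) H := by
    intro i
    have hP : FO fun (M : Type 1) E w => HM.IsReal E (w 1) (w 0) ∧
        ∀ H, App E (w 2) (w 3) H → ¬ E (w 0) H := by
      refine fo_and (fo_real _ _) (fo_all (fo_imp (fo_app _ _ _) (fo_not (fo_mem _ _))))
    obtain ⟨x, hx⟩ := frc_ex hP (cns (chk B Ordinal.omega0) (cns F fun _ => on (c i))) b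
      (fun V hV => exists_notMem V (c i) (hbV V hV))
    refine ⟨fun n => bmem (chk B (n : Ordinal.{0})) x, fun V hV => ?_⟩
    obtain ⟨h1, h2⟩ : HM.IsReal (MU.E V) (om V) (MU.mk V x) ∧
      ∀ H, App (MU.E V) (MU.mk V F) (MU.mk V (on (c i))) H → ¬ MU.E V (MU.mk V x) H := hx V hV
    rw [← hm_real_def V x h1]
    exact h2
  choose y hy using hk
  obtain ⟨j, hj⟩ := hpr y
  -- the countable set `C` and its hull
  set C : BSet B := cnt (fun n => y (j n)) with hC
  have hPH : FO fun (M : Type 1) E w => ∃ g, IsVal M E (w 1) (w 2) (w 3) (w 0) g :=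
    fo_ex (fo_isVal 2 3 4 1 0)
  obtain ⟨H, hH⟩ := frc_ex hPH (cns (chk B Ordinal.omega0) (cns F fun _ => C)) b (by
    intro V hV
    obtain ⟨H, h1, ⟨g, h2, h3, h4⟩, h5, _⟩ := (hbV V hV).1 _ (isFsigma_cnt V fun n => y (j n))
    exact ⟨H, g, h1, h5, h2, h3, h4⟩)
  obtain ⟨G, hG⟩ := frc_ex (fo_isVal 1 2 3 4 0)
    (cns (chk B Ordinal.omega0) (cns F (cns C fun _ => H))) b (fun V hV => hH V hV)
  have hval : ∀ V : UF B, b ∈ V → IsVal (MU V) (MU.E V) (om V) (MU.mk V F) (MU.mk V C)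
      (MU.mk V H) (MU.mk V G) := fun V hV => hG V hV
  -- the codes
  have hu : ∀ (m l : ℕ) (s : Finset ℕ), ∃ u : B, ∀ V : UF B, u ∈ V ↔
      BoxIn (MU V) (MU.E V) (om V) (MU.mk V G) (nn V m) (nn V l) (MU.mk V (fnm s)) := by
    intro m l s
    exact exists_val (B := B) (fo_boxIn 0 1 2 3 4) (scons (chk B Ordinal.omega0) (scons G
      (scons (chk B (m : Ordinal.{0})) (scons (chk B (l : Ordinal.{0})) fun _ => fnm s))))
  choose u hu using hu
  have hagree : ∀ (V : UF B) (l : ℕ) (s : Finset ℕ) (x : ℕ → B), ag l x s ∈ V →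
      HM.Agree (MU.E V) (nn V l) (MU.mk V (rnm x)) (MU.mk V (fnm s)) := by
    intro V l s x h z hz
    obtain ⟨a, ha, rfl⟩ := mem_nn V l z hz
    rw [E_rnm, E_fnm]
    exact ((ag_mem V l x s).1 h a ha).symm
  obtain ⟨i, hi1, hi2⟩ := hj b u (by
    intro m n
    refine UF.le_of_forall fun V hV => ?_
    obtain ⟨_, h2, h3, h4, h5⟩ := hval V hV
    have hxC : MU.E V (MU.mk V (rnm (y (j n)))) (MU.mk V H) :=
      h2 _ (E_cnt V (fun n => y (j n)) n)
    obtain ⟨hx1, hx2⟩ := (h5 _).1 hxC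
    -- some box around `y (j n)` is contained in the `m`-th open set
    have hP : FO fun (M : Type 1) E w => ∀ a, App E (w 1) (w 2) a → ∀ z, HM.IsReal E (w 3) z →
        HM.Agree E (w 0) (w 4) z → E z a :=
      fo_all (fo_imp (fo_app _ _ _) (fo_all (fo_imp (fo_real _ _)
        (fo_imp (fo_agree _ _ _) (fo_mem _ _)))))
    refine bex_om hP (scons G (scons (chk B (m : Ordinal.{0})) (scons (chk B Ordinal.omega0)
      fun _ => rnm (y (j n))))) (fun l => ⨆ s, u m l s ⊓ ag l (y (j n)) s) ?_ V ?_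
    · intro V' l hl
      have hl' : ∀ a, App (MU.E V') (MU.mk V' G) (nn V' m) a → ∀ z, HM.IsReal (MU.E V') (om V') z →
        HM.Agree (MU.E V') (nn V' l) (MU.mk V' (rnm (y (j n)))) z → MU.E V' z a := hl
      set s : Finset ℕ := (Finset.range l).filter fun a => y (j n) a ∈ V' with hs
      have hag : ag l (y (j n)) s ∈ V' := by
        rw [ag_mem]
        intro a ha
        rw [hs, Finset.mem_filter, Finset.mem_range]
        tauto
      refine V'.mem_of_le (V'.inf_mem ((hu m l s V').2 ?_) hag)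
        (le_iSup (fun s => u m l s ⊓ ag l (y (j n)) s) s)
      intro a ha z hz hzs
      refine hl' a ha z hz fun t ht => ?_
      rw [hzs t ht]
      exact hagree V' l s _ hag t ht
    · by_cases hex : ∃ a, App (MU.E V) (MU.mk V G) (nn V m) a
      · obtain ⟨a, ha⟩ := hex
        obtain ⟨l, hl, hl2⟩ := (h4 (nn V m) a (E_nn_om V m) ha).2 _ (hx2 _ _ (E_nn_om V m) ha)
        refine ⟨l, hl, fun a' ha' => ?_⟩
        have haa : a' = a := h3 (nn V m) (E_nn_om V m) a' a ha' ha
        rw [haa]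
        exact hl2
      · exact ⟨nn V 0, E_nn_om V 0, fun a ha => absurd ⟨a, ha⟩ hex⟩)
  -- the contradiction
  obtain ⟨h1, h2, h3, h4, h5⟩ := hval U hbU
  obtain ⟨H', hH', _⟩ := hf.1 _ (isFsigma_on U (c i))
  have hsub : ∀ x, MU.E U x (MU.mk U C) → MU.E U x (MU.mk U (on (c i))) := by
    intro x hx
    refine ball_name (FDef2.ofDef (P := fun _ E w => E (w 0) (w 1)) (FDef.mem 0 1))
      (fun _ => on (c i)) C ?_ U x hx
    intro V n _
    show MU.E V (MU.mk V (rnm (y (j n)))) (MU.mk V (on (c i)))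
    rw [E_on, hi1 n]
    exact V.top_mem
  have hmem : MU.E U (MU.mk U (rnm (y i))) (MU.mk U H) := by
    rw [h5]
    refine ⟨isReal_rnm U _, ?_⟩
    have hP : FDef fun (M : Type 1) E w => ∀ a, App E (w 1) (w 0) a → E (w 2) a :=
      (fo_all (fo_imp (fo_app _ _ _) (fo_mem _ _)) : FO fun (M : Type 1) E w =>
        ∀ a, App E (w 1) (w 0) a → E (w 2) a)
    intro n a hn ha
    refine ball_om hP (scons G fun _ => rnm (y i)) b ?_ U hbU n hn a ha
    intro V hV m
    show ∀ a, App (MU.E V) (MU.mk V G) (nn V m) a → MU.E V (MU.mk V (rnm (y i))) a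
    obtain ⟨b1, hb1⟩ := exists_val (B := B) hP (scons (chk B (m : Ordinal.{0})) (scons G
      fun _ => rnm (y i)))
    refine (hb1 V).1 (V.mem_of_le (V.mem_of_le hV (hi2 m)) ?_)
    refine iSup_le fun l => iSup_le fun s => UF.le_of_forall fun V' hV' => ?_
    rw [UF.inf_mem_iff] at hV'
    rw [hb1]
    intro a ha
    exact (hu m l s V').1 hV'.1 a ha _ (isReal_rnm V' _) (hagree V' l s _ hV'.2)
  exact hy i U hbU H' hH' (hf.2 _ _ _ H' (isFsigma_cnt U _) (isFsigma_on U (c i)) h1 hH' hsub _ hmem)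

/-- there is a model of ZFC in which no class which contains the `F_σ` sets has a monotone `G_δ` hull
operation -/
theorem exists_no_op : ∃ (M : Type 1) (E : M → M → Prop), IsZFC E ∧ ∃ w, IsOmega E w ∧
    ∀ D : M → Prop, (∀ A, IsFsigma E w A → D A) → ¬ ∃ f, IsHullOp E w D f := by
  obtain ⟨B, iB, hn, hB⟩ := exists_prin
  obtain ⟨U, -⟩ := UF.exists_mem (B := B) (a := ⊤) hn
  refine ⟨MU U, MU.E U, isZFC U, om U, isOmega_om U, ?_⟩
  rintro D hD ⟨f, hf1, hf2⟩
  exact no_op hB U f ⟨fun A hA => hf1 A (hD A hA), fun A A' H H' hA hA' =>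
    hf2 A A' H H' (hD A hA) (hD A' hA')⟩

end HC
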