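import Pool.Agent.H46.HC.Supp
import Pool.Agent.H46.HC.Big

/-!
# The combinatorial principle satisfied by the Cohen algebra
-/

set_option autoImplicit false

namespace HC

open BV PK Cardinal

section Basic

variable {B : Type} [CompleteBooleanAlgebra B]

open Classical in
/-- the Boolean value of: `y` agrees with `s` below `l` -/
noncomputable def ag (l : ℕ) (y : ℕ → B) (s : Finset ℕ) : B :=
  ⨅ a : ℕ, ⨅ (_ : a < l), if a ∈ s then y a else (y a)ᶜ

/-- the Boolean value of: `a` and `b` differ -/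
def df (a b : B) : B := (a ⊓ bᶜ) ⊔ (aᶜ ⊓ b)

/-- the Boolean value of: `x` and `c` differ on some interval `[k, 2 k + 2)` -/
noncomputable def oc (c x : ℕ → B) : B :=
  ⨆ k : ℕ, ⨅ a : ℕ, ⨅ (_ : k ≤ a ∧ a < 2 * k + 2), df (x a) (c a)

/-- the principle: there are Cohen reals `c i` such that for all reals `y i` there is a sequence of
reals `y (j n)` such that every `G_δ` set (given by the codes `u`) which contains all `y (j n)` contains
some `y i` such that all `y (j n)` differ from `c i` on some interval `[k, 2 k + 2)` -/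
def Prin (B : Type) [CompleteBooleanAlgebra B] : Prop :=
  ∃ (X : Type) (c : X → ℕ → B), ∀ y : X → ℕ → B, ∃ j : ℕ → X,
    ∀ (b : B) (u : ℕ → ℕ → Finset ℕ → B),
      (∀ m n, b ≤ ⨆ l, ⨆ s, u m l s ⊓ ag l (y (j n)) s) →
      ∃ i : X, (∀ n, oc (c i) (y (j n)) = ⊤) ∧
        ∀ m, b ≤ ⨆ l, ⨆ s, u m l s ⊓ ag l (y i) s

end Basic

variable {X : Type} {B : Type} [CompleteBooleanAlgebra B] {e : Cn X → B}

/-- the `i`-th Cohen real -/
noncomputable def coh (e : Cn X → B) (i : X) (a : ℕ) : B :=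
  ⨆ p : {p : Cn X // p.1 (i, a) = some true}, e p.1

theorem le_coh {p : Cn X} {i : X} {a : ℕ} (h : p.1 (i, a) = some true) : e p ≤ coh e i a :=
  le_iSup (fun p : {p : Cn X // p.1 (i, a) = some true} => e p.1) ⟨p, h⟩

theorem le_coh_compl (he : DenseEmb (Cn X) B e) {p : Cn X} {i : X} {a : ℕ}
    (h : p.1 (i, a) = some false) : e p ≤ (coh e i a)ᶜ := by
  rw [le_compl_iff he]
  intro q hq hqc
  obtain ⟨r, hr, ⟨s, hs⟩, hrs⟩ := he.exists_le_of_le_iSup hqc
  have h1 : e r ⊓ e s ≠ ⊥ := by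
    rw [inf_eq_left.2 hrs]
    exact he.ne_bot r
  obtain ⟨t, ht1, ht2⟩ := he.compat r s h1
  have h2 := ht1 _ _ (hr _ _ (hq _ _ h))
  have h3 := ht2 _ _ hs
  rw [h2] at h3
  exact absurd h3 (by simp)

/-- transport of conditions by `ι : ℕ → X` -/
noncomputable def push (ι : ℕ → X) (q : Cn ℕ) : Cn X :=
  ⟨fun z => Function.extend ι (fun k => q.1 (k, z.2)) (fun _ => none) z.1, by
    classical
    refine (q.2.image (Prod.map ι id)).subset ?_
    intro z hz
    by_cases h : ∃ k, ι k = z.1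
    · have h1 : Function.extend ι (fun k => q.1 (k, z.2)) (fun _ => none) z.1 =
          q.1 (Classical.choose h, z.2) := by
        unfold Function.extend
        rw [dif_pos h]
      have h2 : q.1 (Classical.choose h, z.2) ≠ none := by
        rw [← h1]
        exact hz
      refine ⟨(Classical.choose h, z.2), h2, ?_⟩
      exact Prod.ext (Classical.choose_spec h) rfl
    · exact absurd (Function.extend_apply' _ _ _ h) hz⟩

theorem push_some {ι : ℕ → X} (hι : Function.Injective ι) {q : Cn ℕ} {z : X × ℕ} {b : Bool} :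
    (push ι q).1 z = some b ↔ ∃ k, ι k = z.1 ∧ q.1 (k, z.2) = some b := by
  change Function.extend ι (fun k => q.1 (k, z.2)) (fun _ => none) z.1 = some b ↔ _
  by_cases h : ∃ k, ι k = z.1
  · obtain ⟨k, hk⟩ := h
    rw [← hk, hι.extend_apply]
    constructor
    · intro h
      exact ⟨k, rfl, h⟩
    · rintro ⟨k', hk', h⟩
      rwa [hι hk'] at h
  · rw [Function.extend_apply' _ _ _ h]
    constructor
    · intro h
      exact absurd h (by simp)
    · rintro ⟨k, hk, _⟩
      exact absurd ⟨k, hk⟩ h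

/-- the part of the condition `p` on the rows `ι k` -/
def pull {ι : ℕ → X} (hι : Function.Injective ι) (p : Cn X) : Cn ℕ :=
  ⟨fun z => p.1 (ι z.1, z.2), by
    have h1 : Function.Injective (fun z : ℕ × ℕ => (ι z.1, z.2)) := by
      intro z z' h
      simp only [Prod.mk.injEq] at h
      exact Prod.ext (hι h.1) h.2
    exact p.2.preimage h1.injOn⟩

theorem push_pull {ι : ℕ → X} (hι : Function.Injective ι) (p : Cn X) :
    push ι (pull hι p) = rs (Set.range ι) p := by
  apply Subtype.ext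
  funext z
  apply Option.ext
  intro b
  rw [push_some hι, rs_some]
  constructor
  · rintro ⟨k, hk, h⟩
    change p.1 (ι k, z.2) = some b at h
    rw [hk] at h
    exact ⟨⟨k, hk⟩, h⟩
  · rintro ⟨⟨k, hk⟩, h⟩
    refine ⟨k, hk, ?_⟩
    change p.1 (ι k, z.2) = some b
    rw [hk]
    exact h

theorem push_mono {ι : ℕ → X} (hι : Function.Injective ι) {q q' : Cn ℕ} (h : q ≤ q') :
    push ι q ≤ push ι q' := by
  intro z b hz
  rw [push_some hι] at hz ⊢
  obtain ⟨k, hk, hk2⟩ := hz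
  exact ⟨k, hk, h _ _ hk2⟩

/-- the type of the name `y` with respect to `ι` -/
def tp (e : Cn X → B) (ι : ℕ → X) (y : ℕ → B) : ℕ → Set (Cn ℕ) := fun n => {q | e (push ι q) ≤ y n}

theorem push_le_compl (he : DenseEmb (Cn X) B e) {ι : ℕ → X} (hι : Function.Injective ι) {b : B}
    (hS : Su e (Set.range ι) b) (q : Cn ℕ) :
    e (push ι q) ≤ bᶜ ↔ ∀ q' ≤ q, ¬ e (push ι q') ≤ b := by
  rw [le_compl_iff he]
  constructor
  · intro h q' hq'
    exact h _ (push_mono hι hq')
  · intro h r hr hrb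
    have h1 := hS r hrb
    rw [← push_pull hι] at h1
    refine h (pull hι r) ?_ h1
    intro z b hz
    exact hr (ι z.1, z.2) b ((push_some hι).2 ⟨z.1, rfl, hz⟩)

theorem push_le_ag (he : DenseEmb (Cn X) B e) {ι : ℕ → X} (hι : Function.Injective ι) {y : ℕ → B}
    (hS : ∀ n, Su e (Set.range ι) (y n)) (q : Cn ℕ) (l : ℕ) (s : Finset ℕ) :
    e (push ι q) ≤ ag l y s ↔ ∀ a < l, (a ∈ s → q ∈ tp e ι y a) ∧
      (a ∉ s → ∀ q' ≤ q, q' ∉ tp e ι y a) := by
  classical
  unfold ag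
  rw [le_iInf_iff]
  refine forall_congr' fun a => ?_
  rw [le_iInf_iff]
  refine forall_congr' fun ha => ?_
  by_cases h : a ∈ s
  · simp only [h, if_true, true_imp_iff, not_true, false_imp_iff, and_true]
    exact Iff.rfl
  · simp only [h, if_false, false_imp_iff, not_false_iff, true_imp_iff, true_and]
    exact push_le_compl he hι (hS a) q

theorem Su.ag (he : DenseEmb (Cn X) B e) {S : Set X} {y : ℕ → B} (h : ∀ n, Su e S (y n)) (l : ℕ)
    (s : Finset ℕ) : Su e S (ag l y s) := by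
  unfold HC.ag
  refine Su.iInf fun a => Su.iInf fun _ => ?_
  by_cases ha : a ∈ s
  · rw [if_pos ha]
    exact h a
  · rw [if_neg ha]
    exact (h a).compl he

theorem exists_decide_fin (he : DenseEmb (Cn X) B e) (y : ℕ → B) (F : Finset ℕ) (p : Cn X) :
    ∃ p1 ≤ p, ∀ a ∈ F, e p1 ≤ y a ∨ e p1 ≤ (y a)ᶜ := by
  classical
  induction F using Finset.induction_on with
  | empty => exact ⟨p, le_rfl, fun a ha => absurd ha (Finset.notMem_empty a)⟩
  | insert a F _ ih =>
    obtain ⟨p1, hp1, h1⟩ := ih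
    obtain ⟨p2, hp2, h2⟩ : ∃ p2 ≤ p1, e p2 ≤ y a ∨ e p2 ≤ (y a)ᶜ := by
      by_cases h : e p1 ≤ (y a)ᶜ
      · exact ⟨p1, le_rfl, Or.inr h⟩
      · rw [le_compl_iff he] at h
        push Not at h
        obtain ⟨q, hq, hqa⟩ := h
        exact ⟨q, hq, Or.inl hqa⟩
    refine ⟨p2, hp2.trans hp1, fun a' ha' => ?_⟩
    rcases Finset.mem_insert.1 ha' with rfl | ha'
    · exact h2
    · rcases h1 a' ha' with h | h
      · exact Or.inl ((he.mono _ _ hp2).trans h)
      · exact Or.inr ((he.mono _ _ hp2).trans h)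

theorem oc_eq_top (he : DenseEmb (Cn X) B e) {y : ℕ → B} {S : Set X} (hS : ∀ n, Su e S (y n))
    {i : X} (hi : i ∉ S) : oc (coh e i) y = ⊤ := by
  classical
  refine he.iSup_eq_top fun p => ?_
  -- above `k` nothing is decided
  obtain ⟨k, hk⟩ : ∃ k : ℕ, ∀ a, k ≤ a → p.1 (i, a) = none := by
    have h1 : {a : ℕ | p.1 (i, a) ≠ none}.Finite := by
      refine p.2.preimage ?_ (f := fun a : ℕ => (i, a))
      intro a _ a' _ h
      exact (Prod.mk.injEq _ _ _ _ ▸ h).2
    obtain ⟨k, hk⟩ := h1.bddAbove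
    refine ⟨k + 1, fun a ha => ?_⟩
    by_contra hne
    have h2 : a ≤ k := hk hne
    omega
  obtain ⟨p1, hp1, hdec⟩ := exists_decide_fin he y (Finset.Ico k (2 * k + 2)) p
  set p2 : Cn X := glue p (rs S p1) with hp2
  have h2 : p2 ≤ rs S p1 := by
    refine glue_le_right ?_
    intro z b1 b2 hz1 hz2
    have h3 := hp1 z b1 hz1
    rw [(rs_some.1 hz2).2] at h3
    exact (Option.some.inj h3).symm
  have h2i : ∀ a, k ≤ a → p2.1 (i, a) = none := by
    intro a ha
    by_contra hne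
    obtain ⟨b, hb⟩ := Option.ne_none_iff_exists'.mp hne
    rcases glue_some hb with h | ⟨_, h⟩
    · rw [hk a ha] at h
      exact absurd h (by simp)
    · exact hi (rs_some.1 h).1
  have hdec2 : ∀ a ∈ Finset.Ico k (2 * k + 2), e p2 ≤ y a ∨ e p2 ≤ (y a)ᶜ := by
    intro a ha
    rcases hdec a ha with h | h
    · exact Or.inl ((he.mono _ _ h2).trans (hS a p1 h))
    · exact Or.inr ((he.mono _ _ h2).trans ((hS a).compl he p1 h))
  let r : Cn X := ⟨fun z => if z.1 = i ∧ k ≤ z.2 ∧ z.2 < 2 * k + 2 then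
      some (decide (¬ e p2 ≤ y z.2)) else none, by
    refine (((Finset.Ico k (2 * k + 2)).finite_toSet).image (fun a => (i, a))).subset ?_
    intro z hz
    have hz' : z.1 = i ∧ k ≤ z.2 ∧ z.2 < 2 * k + 2 := by
      by_contra hc
      apply hz
      show (if z.1 = i ∧ k ≤ z.2 ∧ z.2 < 2 * k + 2 then
        some (decide (¬ e p2 ≤ y z.2)) else none) = none
      rw [if_neg hc]
    refine ⟨z.2, ?_, Prod.ext hz'.1.symm rfl⟩
    rw [Finset.mem_coe, Finset.mem_Ico]
    exact hz'.2⟩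
  have hr : ∀ a, k ≤ a → a < 2 * k + 2 → r.1 (i, a) = some (decide (¬ e p2 ≤ y a)) := by
    intro a h1 h2
    show (if (i, a).1 = i ∧ k ≤ (i, a).2 ∧ (i, a).2 < 2 * k + 2 then
        some (decide (¬ e p2 ≤ y (i, a).2)) else none) = _
    rw [if_pos ⟨rfl, h1, h2⟩]
  have h3 : glue p2 r ≤ r := by
    refine glue_le_right ?_
    intro z b1 b2 hz1 hz2
    exfalso
    have hz' : z.1 = i ∧ k ≤ z.2 ∧ z.2 < 2 * k + 2 := by
      by_contra hc
      have h5 : r.1 z = none := by
        show (if z.1 = i ∧ k ≤ z.2 ∧ z.2 < 2 * k + 2 then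
          some (decide (¬ e p2 ≤ y z.2)) else none) = none
        rw [if_neg hc]
      rw [h5] at hz2
      exact absurd hz2 (by simp)
    have h6 := h2i z.2 hz'.2.1
    rw [← hz'.1] at h6
    have h7 : p2.1 z = none := h6
    rw [h7] at hz1
    exact absurd hz1 (by simp)
  refine ⟨glue p2 r, (glue_le_left _ _).trans (glue_le_left _ _), k, ?_⟩
  refine le_iInf fun a => le_iInf fun ha => ?_
  have h4 := h3 (i, a) _ (hr a ha.1 ha.2)
  have h5 : e (glue p2 r) ≤ e p2 := he.mono _ _ (glue_le_left _ _)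
  unfold df
  by_cases hy : e p2 ≤ y a
  · refine le_sup_of_le_left (le_inf (h5.trans hy) ?_)
    apply le_coh_compl he
    rw [h4]
    simp [hy]
  · refine le_sup_of_le_right (le_inf ?_ ?_)
    · rcases hdec2 a (Finset.mem_Ico.2 ha) with h | h
      · exact absurd h hy
      · exact h5.trans h
    · apply le_coh
      rw [h4]
      simp [hy]

/-- the transfer of `y (j n) ∈ G` to `y i ∈ G` -/
theorem key (he : DenseEmb (Cn X) B e) {ι : X → ℕ → X} (hι : ∀ x, Function.Injective (ι x))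
    {y : X → ℕ → B} (hsu : ∀ x n, Su e (Set.range (ι x)) (y x n)) {A : Set ℕ} {r : ℕ → X}
    {ζ : ℕ → Set (Cn ℕ)} {j : ℕ → X} {i : X} (hjA : ∀ n, ∀ k ∈ A, ι (j n) k = r k)
    (hiA : ∀ k ∈ A, ι i k = r k) (hjz : ∀ n, tp e (ι (j n)) (y (j n)) = ζ)
    (hiz : tp e (ι i) (y i) = ζ)
    (hdis : ∀ m n, m < n → ∀ k, k ∉ A → ∀ k', ι (j n) k ≠ ι (j m) k') {S : Set X}
    (hiS : ∀ k, k ∉ A → ι i k ∉ S) {b : B} (hb : Su e S b) {u : ℕ → Finset ℕ → B}
    (hu : ∀ l s, Su e S (u l s)) (H : ∀ n, b ≤ ⨆ l, ⨆ s, u l s ⊓ ag l (y (j n)) s) :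
    b ≤ ⨆ l, ⨆ s, u l s ⊓ ag l (y i) s := by
  classical
  by_contra hcon
  set G : B := ⨆ l, ⨆ s, u l s ⊓ ag l (y i) s with hG
  have h1 : b ⊓ Gᶜ ≠ ⊥ := by
    intro h
    apply hcon
    rw [← compl_compl G]
    exact le_compl_iff_disjoint_right.2 (disjoint_iff.2 h)
  obtain ⟨p, hp⟩ := he.dense _ h1
  -- the rows of `p`
  have hD : ((fun z : X × ℕ => z.1) '' {z | p.1 z ≠ none}).Finite := p.2.image _
  obtain ⟨n, hn⟩ : ∃ n, ∀ k, k ∉ A → ι (j n) k ∉ (fun z : X × ℕ => z.1) '' {z | p.1 z ≠ none} := by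
    by_contra hc
    push Not at hc
    choose k hk1 hk2 using hc
    have hfin : Finite ((fun z : X × ℕ => z.1) '' {z | p.1 z ≠ none}) := hD.to_subtype
    obtain ⟨m, n, hmn, h⟩ := Finite.exists_ne_map_eq_of_infinite
      (fun n => (⟨ι (j n) (k n), hk2 n⟩ : ((fun z : X × ℕ => z.1) '' {z | p.1 z ≠ none})))
    have h' : ι (j m) (k m) = ι (j n) (k n) := congrArg Subtype.val h
    rcases lt_or_gt_of_ne hmn with hlt | hlt
    · exact hdis m n hlt (k n) (hk1 n) (k m) h'.symm
    · exact hdis n m hlt (k m) (hk1 m) (k n) h'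
  have hn' : ∀ k a b', k ∉ A → p.1 (ι (j n) k, a) ≠ some b' := by
    intro k a b' hk h
    exact hn k hk ⟨(ι (j n) k, a), by simp [h], rfl⟩
  set q : Cn ℕ := pull (hι i) p with hq
  set p' : Cn X := glue (rs S p) (push (ι (j n)) q) with hp'
  have hp'1 : p' ≤ rs S p := glue_le_left _ _
  have hp'2 : p' ≤ push (ι (j n)) q := by
    refine glue_le_right ?_
    intro z b1 b2 hz1 hz2
    rw [rs_some] at hz1
    rw [push_some (hι _)] at hz2
    obtain ⟨k, hk, hk2⟩ := hz2
    change p.1 (ι i k, z.2) = some b2 at hk2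
    by_cases hkA : k ∈ A
    · rw [hiA k hkA, ← hjA n k hkA, hk] at hk2
      have h2 : p.1 z = some b2 := hk2
      rw [hz1.2] at h2
      exact Option.some.inj h2
    · exfalso
      refine hn' k z.2 b1 hkA ?_
      rw [hk]
      exact hz1.2
  have hbp : e p' ≤ b := (he.mono _ _ hp'1).trans (hb p (hp.trans inf_le_left))
  obtain ⟨t, ht, l, hl⟩ := he.exists_le_of_le_iSup (hbp.trans (H n))
  obtain ⟨p'', hp'', s, hs⟩ := he.exists_le_of_le_iSup hl
  have hp''p' : p'' ≤ p' := hp''.trans ht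
  have hu1 : e (rs S p'') ≤ u l s := hu l s p'' (hs.trans inf_le_left)
  have ha1 : e (push (ι (j n)) (pull (hι (j n)) p'')) ≤ ag l (y (j n)) s := by
    rw [push_pull]
    exact Su.ag he (hsu (j n)) l s p'' (hs.trans inf_le_right)
  have ha2 : e (push (ι i) (pull (hι (j n)) p'')) ≤ ag l (y i) s := by
    rw [push_le_ag he (hι _) (hsu _)] at ha1 ⊢
    rw [hiz]
    rw [hjz n] at ha1
    exact ha1
  set t1 : Cn X := glue (rs S p'') (push (ι i) (pull (hι (j n)) p'')) with ht1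
  have ht1a : t1 ≤ rs S p'' := glue_le_left _ _
  have ht1b : t1 ≤ push (ι i) (pull (hι (j n)) p'') := by
    refine glue_le_right ?_
    intro z b1 b2 hz1 hz2
    rw [rs_some] at hz1
    rw [push_some (hι _)] at hz2
    obtain ⟨k, hk, hk2⟩ := hz2
    change p''.1 (ι (j n) k, z.2) = some b2 at hk2
    by_cases hkA : k ∈ A
    · rw [hjA n k hkA, ← hiA k hkA, hk] at hk2
      have h2 : p''.1 z = some b2 := hk2
      rw [hz1.2] at h2
      exact Option.some.inj h2
    · exfalso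
      refine hiS k hkA ?_
      rw [hk]
      exact hz1.1
  have ht2 : glue p t1 ≤ t1 := by
    refine glue_le_right ?_
    intro z b1 b2 hz1 hz2
    rcases glue_some hz2 with h | ⟨_, h⟩
    · rw [rs_some] at h
      have h2 := hp''p' z b1 (hp'1 z b1 (rs_some.2 ⟨h.1, hz1⟩))
      rw [h.2] at h2
      exact (Option.some.inj h2).symm
    · rw [push_some (hι _)] at h
      obtain ⟨k, hk, hk2⟩ := h
      change p''.1 (ι (j n) k, z.2) = some b2 at hk2
      have h3 : (push (ι (j n)) q).1 (ι (j n) k, z.2) = some b1 := by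
        rw [push_some (hι _)]
        refine ⟨k, rfl, ?_⟩
        show p.1 (ι i k, z.2) = some b1
        rw [hk]
        exact hz1
      have h2 := hp''p' _ _ (hp'2 _ _ h3)
      rw [hk2] at h2
      exact (Option.some.inj h2).symm
  have hfin : e (glue p t1) ≤ G := by
    refine le_trans ?_ (le_iSup_of_le l (le_iSup_of_le s le_rfl))
    exact le_inf ((he.mono _ _ (ht2.trans ht1a)).trans hu1)
      ((he.mono _ _ (ht2.trans ht1b)).trans ha2)
  apply he.ne_bot (glue p t1)
  rw [← le_bot_iff, ← inf_compl_eq_bot (a := G)]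
  exact le_inf hfin ((he.mono _ _ (glue_le_left _ _)).trans (hp.trans inf_le_right))

/-- the Cohen algebra satisfies the principle -/
theorem prin_of_denseEmb (hX : 2 ^ ℵ₀ < #X) (he : DenseEmb (Cn X) B e) : Prin B := by
  classical
  have hinf : Infinite X := by
    rw [Cardinal.infinite_iff]
    exact ((Cardinal.cantor ℵ₀).trans hX).le
  refine ⟨X, coh e, fun y => ?_⟩
  -- supports
  have hs : ∀ x, ∃ ι : ℕ → X, Function.Injective ι ∧ ι 0 = x ∧
      ∀ n, Su e (Set.range ι) (y x n) := by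
    intro x
    choose S hSc hS using fun n => exists_su he (y x n)
    obtain ⟨ι, h1, h2, h3⟩ := exists_enum (⋃ n, S n) (Set.countable_iUnion hSc) x
    exact ⟨ι, h1, h2, fun n => (hS n).mono he ((Set.subset_iUnion S n).trans h3)⟩
  choose ι hι h0 hsu using hs
  have hZ : #(ℕ → Set (Cn ℕ)) ≤ 2 ^ ℵ₀ := by
    have h1 : #(Cn ℕ) ≤ ℵ₀ := by
      refine (Fp.mk_le (by simp)).trans ?_
      simp
    rw [← Cardinal.power_def, Cardinal.mk_set, Cardinal.mk_nat, ← Cardinal.power_mul]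
    refine Cardinal.power_le_power_left two_ne_zero ?_
    exact (mul_le_mul' h1 le_rfl).trans (by simp)
  obtain ⟨A, r, ζ, h0A, hbig⟩ := exists_big hX hZ ι h0 (fun x => tp e (ι x) (y x))
  -- the sequence
  obtain ⟨j, hj1, hj2⟩ := exists_seq_of_forall_finset_exists
    (fun x => (∀ n ∈ A, ι x n = r n) ∧ tp e (ι x) (y x) = ζ)
    (fun x x' => ∀ k, k ∉ A → ∀ k', ι x' k ≠ ι x k') (by
      intro s _
      obtain ⟨x, hx1, hx2, hx3⟩ := hbig (⋃ x' ∈ s, Set.range (ι x'))
        (s.countable_toSet.biUnion fun x' _ => Set.countable_range _)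
      refine ⟨x, ⟨hx1, hx2⟩, fun x' hx' k hk k' h => hx3 k hk ?_⟩
      rw [h]
      exact Set.mem_biUnion (Finset.mem_coe.2 hx') ⟨k', rfl⟩)
  refine ⟨j, fun b u H => ?_⟩
  obtain ⟨Sb, hSbc, hSb⟩ := exists_su he b
  choose Su' hSuc hSu using fun m l s => exists_su he (u m l s)
  let S : Set X := Sb ∪ ((⋃ m, ⋃ l, ⋃ s, Su' m l s) ∪ ⋃ n, Set.range (ι (j n)))
  have hSc : S.Countable := hSbc.union ((Set.countable_iUnion fun m => Set.countable_iUnion fun l =>
    Set.countable_iUnion fun s => hSuc m l s).union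
      (Set.countable_iUnion fun n => Set.countable_range _))
  obtain ⟨i, hi1, hi2, hi3⟩ := hbig S hSc
  have hjS : ∀ n, Set.range (ι (j n)) ⊆ S := fun n => (Set.subset_iUnion
    (fun n => Set.range (ι (j n))) n).trans (Set.subset_union_right.trans Set.subset_union_right)
  refine ⟨i, fun n => ?_, fun m => ?_⟩
  · refine oc_eq_top he (fun k => (hsu (j n) k).mono he (hjS n)) ?_
    have h1 := hi3 0 h0A
    rwa [h0] at h1
  · refine key he hι hsu (fun n => (hj1 n).1) hi1 (fun n => (hj1 n).2) hi2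
      (fun m n hmn k hk k' => hj2 m n hmn k hk k') hi3 (hSb.mono he Set.subset_union_left)
      (fun l s => (hSu m l s).mono he ?_) (H m)
    intro x hx
    exact Or.inr (Or.inl (Set.mem_iUnion.2 ⟨m, Set.mem_iUnion.2 ⟨l, Set.mem_iUnion.2 ⟨s, hx⟩⟩⟩))

theorem exists_prin : ∃ (B : Type) (_ : CompleteBooleanAlgebra B), (⊤ : B) ≠ ⊥ ∧ Prin B := by
  let X : Type := Set (Set ℕ)
  have hX : 2 ^ ℵ₀ < #X := by
    rw [Cardinal.mk_set, Cardinal.mk_set, Cardinal.mk_nat]
    exact Cardinal.cantor _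
  obtain ⟨B, iB, e, he⟩ := exists_denseEmb (Cn X)
  refine ⟨B, iB, ?_, prin_of_denseEmb hX he⟩
  intro h
  apply he.ne_bot Fp.emp
  rw [← le_bot_iff, ← h]
  exact le_top

end HC
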