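import Pool.Agent.H92.CN.Coin
import Pool.Agent.H46.Hull.Defs

/-!
# The real world: monotone `G_δ` hull operations on `ℕ → Bool`
-/

set_option autoImplicit false

namespace HC

/-- `φ` is a monotone `G_δ` hull operation on the class `D` of (Borel) sets of 0-1 sequences -/
def HullOp2 (D : Set (Set (ℕ → Bool))) (φ : Set (ℕ → Bool) → Set (ℕ → Bool)) : Prop :=
  (∀ A ∈ D, IsGδ (φ A) ∧ A ⊆ φ A ∧ CN.coin (φ A \ A) = 0) ∧
  ∀ A ∈ D, ∀ A' ∈ D, A ⊆ A' → φ A ⊆ φ A'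

/-- the Borel sets of 0-1 sequences -/
def Bor2 : Set (Set (ℕ → Bool)) := {A | MeasurableSet A}

/-- the `F_σ` sets of 0-1 sequences -/
def Fsg2 : Set (Set (ℕ → Bool)) := {A | ∃ F : ℕ → Set (ℕ → Bool), (∀ n, IsClosed (F n)) ∧ A = ⋃ n, F n}

end HC
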