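import Pool.Agent.H92.PK.Coh
import Pool.Agent.H26.BV.Rop

/-!
# Supports in the Cohen algebra on `X × ℕ`
-/

set_option autoImplicit false

namespace HC

open BV PK Cardinal

/-- finite partial functions from `X × ℕ` to `Bool` -/
abbrev Cn (X : Type) := Fp (X × ℕ)

variable {X : Type}

open Classical in
/-- the restriction of the condition `p` to the rows in `S` -/
noncomputable def rs (S : Set X) (p : Cn X) : Cn X :=
  ⟨fun z => if z.1 ∈ S then p.1 z else none, by
    refine p.2.subset ?_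
    intro z hz
    simp only [Set.mem_ofPred_eq] at hz ⊢
    by_cases h : z.1 ∈ S
    · rwa [if_pos h] at hz
    · rw [if_neg h] at hz
      exact absurd rfl hz⟩

theorem rs_some {S : Set X} {p : Cn X} {z : X × ℕ} {b : Bool} :
    (rs S p).1 z = some b ↔ z.1 ∈ S ∧ p.1 z = some b := by
  unfold rs
  by_cases h : z.1 ∈ S
  · simp [h]
  · simp [h]

theorem le_rs (S : Set X) (p : Cn X) : p ≤ rs S p := fun _ _ h => (rs_some.1 h).2

theorem rs_mono (S : Set X) {p q : Cn X} (h : p ≤ q) : rs S p ≤ rs S q := by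
  intro z b hz
  rw [rs_some] at hz ⊢
  exact ⟨hz.1, h _ _ hz.2⟩

theorem rs_anti {S S' : Set X} (h : S ⊆ S') (p : Cn X) : rs S' p ≤ rs S p := by
  intro z b hz
  rw [rs_some] at hz ⊢
  exact ⟨h hz.1, hz.2⟩

open Classical in
/-- first `p`, then `q` -/
noncomputable def glue (p q : Cn X) : Cn X :=
  ⟨fun z => if p.1 z = none then q.1 z else p.1 z, by
    refine (p.2.union q.2).subset ?_
    intro z hz
    simp only [Set.mem_ofPred_eq] at hz
    by_cases h : p.1 z = none
    · right
      rwa [if_pos h] at hz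
    · exact Or.inl h⟩

theorem glue_le_left (p q : Cn X) : glue p q ≤ p := by
  intro z b hz
  show (if p.1 z = none then q.1 z else p.1 z) = some b
  rw [if_neg (by rw [hz]; simp), hz]

theorem glue_le_right {p q : Cn X} (h : ∀ z b b', p.1 z = some b → q.1 z = some b' → b = b') :
    glue p q ≤ q := by
  intro z b hz
  show (if p.1 z = none then q.1 z else p.1 z) = some b
  by_cases h1 : p.1 z = none
  · rw [if_pos h1, hz]
  · rw [if_neg h1]
    obtain ⟨c, hc⟩ := Option.ne_none_iff_exists'.mp h1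
    rw [hc, h z c b hc hz]

theorem glue_some {p q : Cn X} {z : X × ℕ} {b : Bool} (h : (glue p q).1 z = some b) :
    p.1 z = some b ∨ (p.1 z = none ∧ q.1 z = some b) := by
  change (if p.1 z = none then q.1 z else p.1 z) = some b at h
  by_cases h1 : p.1 z = none
  · rw [if_pos h1] at h
    exact Or.inr ⟨h1, h⟩
  · rw [if_neg h1] at h
    exact Or.inl h

variable {B : Type} [CompleteBooleanAlgebra B] {e : Cn X → B}

/-- the rows in `S` support `b` -/
def Su (e : Cn X → B) (S : Set X) (b : B) : Prop := ∀ p, e p ≤ b → e (rs S p) ≤ b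

theorem inc_bot (he : DenseEmb (Cn X) B e) {p q : Cn X} (h : ¬ ∃ r, r ≤ p ∧ r ≤ q) :
    e p ⊓ e q = ⊥ := by
  by_contra hne
  exact h (he.compat p q hne)

theorem le_compl_iff (he : DenseEmb (Cn X) B e) {p : Cn X} {b : B} :
    e p ≤ bᶜ ↔ ∀ q ≤ p, ¬ e q ≤ b := by
  constructor
  · intro h q hq hb
    apply he.ne_bot q
    rw [← le_bot_iff, ← inf_compl_eq_bot (a := b)]
    exact le_inf hb ((he.mono _ _ hq).trans h)
  · intro h
    rw [le_compl_iff_disjoint_right, disjoint_iff]
    by_contra hne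
    obtain ⟨q, hq, hqb⟩ := he.exists_le_of_inf_ne_bot hne
    exact h q hq hqb

theorem not_le_iff (he : DenseEmb (Cn X) B e) {p : Cn X} {b : B} :
    ¬ e p ≤ b ↔ ∃ q ≤ p, e q ≤ bᶜ := by
  have h := le_compl_iff he (p := p) (b := bᶜ)
  rw [compl_compl] at h
  rw [h]
  push Not
  rfl

theorem Su.compl (he : DenseEmb (Cn X) B e) {S : Set X} {b : B} (h : Su e S b) : Su e S bᶜ := by
  intro p hp
  rw [le_compl_iff he]
  intro r hr hrb
  have h1 := h r hrb
  -- `p` and `rs S r` are compatible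
  have h2 : glue p (rs S r) ≤ rs S r := by
    refine glue_le_right ?_
    intro z b1 b2 hz1 hz2
    rw [rs_some] at hz2
    have h3 := hr z b1 (rs_some.2 ⟨hz2.1, hz1⟩)
    rw [h3] at hz2
    exact Option.some.inj hz2.2
  exact (le_compl_iff he).1 hp _ (glue_le_left _ _) ((he.mono _ _ h2).trans h1)

theorem Su.iInf {S : Set X} {ι : Sort*} {f : ι → B} (h : ∀ i, Su e S (f i)) :
    Su e S (⨅ i, f i) := by
  intro p hp
  exact le_iInf fun i => h i p (hp.trans (iInf_le f i))

theorem Su.iSup (he : DenseEmb (Cn X) B e) {S : Set X} {ι : Sort*} {f : ι → B}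
    (h : ∀ i, Su e S (f i)) : Su e S (⨆ i, f i) := by
  have h1 : (⨆ i, f i) = (⨅ i, (f i)ᶜ)ᶜ := by rw [compl_iInf]; simp
  rw [h1]
  exact (Su.iInf fun i => (h i).compl he).compl he

theorem Su.inf {S : Set X} {a b : B} (ha : Su e S a) (hb : Su e S b) : Su e S (a ⊓ b) := by
  intro p hp
  exact le_inf (ha p (hp.trans inf_le_left)) (hb p (hp.trans inf_le_right))

theorem Su.mono (he : DenseEmb (Cn X) B e) {S S' : Set X} (hS : S ⊆ S') {b : B}
    (h : Su e S b) : Su e S' b := by
  intro p hp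
  exact (he.mono _ _ (rs_anti hS p)).trans (h p hp)

/-- every element of `B` has a countable support -/
theorem exists_su (he : DenseEmb (Cn X) B e) (b : B) : ∃ S : Set X, S.Countable ∧ Su e S b := by
  classical
  -- a maximal set of pairwise incompatible conditions below `b`
  let 𝒜 : Set (Set (Cn X)) := {A | (∀ p ∈ A, e p ≤ b) ∧
    ∀ p ∈ A, ∀ q ∈ A, p ≠ q → ¬ ∃ r, r ≤ p ∧ r ≤ q}
  obtain ⟨A, hA⟩ : ∃ A, Maximal (· ∈ 𝒜) A := by
    refine zorn_subset 𝒜 ?_
    intro c hc hchain
    refine ⟨⋃₀ c, ⟨?_, ?_⟩, fun s hs => Set.subset_sUnion_of_mem hs⟩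
    · rintro p ⟨s, hs, hp⟩
      exact (hc hs).1 p hp
    · rintro p ⟨s, hs, hp⟩ q ⟨t, ht, hq⟩ hne
      rcases hchain.total hs ht with h | h
      · exact (hc ht).2 p (h hp) q hq hne
      · exact (hc hs).2 p hp q (h hq) hne
  have hAc : A.Countable := by
    by_contra hcon
    have h1 : ℵ₀ < #A := by
      by_contra h2
      push Not at h2
      exact hcon (Cardinal.le_aleph0_iff_set_countable.1 h2)
    obtain ⟨i, j, hij, hr⟩ := Fp.ccc (fun p : A => p.1) h1
    exact hA.prop.2 i.1 i.2 j.1 j.2 (fun h => hij (Subtype.ext h)) hr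
  have hmax : ∀ q, e q ≤ b → ∃ p ∈ A, ∃ r, r ≤ p ∧ r ≤ q := by
    intro q hq
    by_contra hcon
    push Not at hcon
    have h1 : insert q A ∈ 𝒜 := by
      refine ⟨?_, ?_⟩
      · rintro p (rfl | hp)
        · exact hq
        · exact hA.prop.1 p hp
      · rintro p (rfl | hp) p' (rfl | hp') hne
        · exact absurd rfl hne
        · rintro ⟨r, hr1, hr2⟩
          exact hcon p' hp' r hr2 hr1
        · rintro ⟨r, hr1, hr2⟩
          exact hcon p hp r hr1 hr2
        · exact hA.prop.2 p hp p' hp' hne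
    have h2 : q ∈ A := hA.le_of_ge h1 (Set.subset_insert q A) (Set.mem_insert q A)
    exact hcon q h2 q le_rfl le_rfl
  refine ⟨⋃ p ∈ A, (fun z : X × ℕ => z.1) '' {z | p.1 z ≠ none}, ?_, ?_⟩
  · exact hAc.biUnion fun p _ => (p.2.image _).countable
  · set S : Set X := ⋃ p ∈ A, (fun z : X × ℕ => z.1) '' {z | p.1 z ≠ none} with hS
    have hdom : ∀ p ∈ A, ∀ z b', p.1 z = some b' → z.1 ∈ S := by
      intro p hp z b' hz
      rw [hS]
      simp only [Set.mem_iUnion]
      exact ⟨p, hp, z, by simp [hz], rfl⟩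
    intro q hq
    by_contra hcon
    obtain ⟨r, hr, hrb⟩ := (not_le_iff he).1 hcon
    have h2 : glue q (rs S r) ≤ rs S r := by
      refine glue_le_right ?_
      intro z b1 b2 hz1 hz2
      rw [rs_some] at hz2
      have h3 := hr z b1 (rs_some.2 ⟨hz2.1, hz1⟩)
      rw [h3] at hz2
      exact Option.some.inj hz2.2
    obtain ⟨p, hp, t, ht1, ht2⟩ := hmax (glue q (rs S r)) ((he.mono _ _ (glue_le_left _ _)).trans hq)
    -- `p` and `r` are compatible
    obtain ⟨s, hs1, hs2⟩ := Fp.exists_le_le p r (by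
      intro z b1 b2 hz1 hz2
      have h4 := ht1 z b1 hz1
      have h5 := (ht2.trans h2) z b2 (rs_some.2 ⟨hdom p hp z b1 hz1, hz2⟩)
      rw [h4] at h5
      exact Option.some.inj h5)
    exact (le_compl_iff he).1 hrb s hs2 ((he.mono _ _ hs1).trans (hA.prop.1 p hp))

end HC
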